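import Mathlib

/-!
Definitions used in the statement `MP_cd8289_gt.HomComponents`: flats and no-broken-circuit
sets of a finite family of complex affine forms, and the space of orthogonal representations of a
group.
-/

set_option autoImplicit false

namespace ArrHom

/-- the flat cut out by the hyperplanes `α j = 0`, `j ∈ S` -/
def flat {l n : ℕ} (α : Fin n → ((Fin l → ℂ) →ᵃ[ℂ] ℂ)) (S : Finset (Fin n)) :
    Set (Fin l → ℂ) := {v | ∀ j ∈ S, α j v = 0}

/-- `S` is a no-broken-circuit set: the flat of `S` is nonempty, and for each `i ∈ S` the least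
hyperplane which contains the flat of `{k ∈ S | i ≤ k}` is the hyperplane `i`. -/
def IsNBC {l n : ℕ} (α : Fin n → ((Fin l → ℂ) →ᵃ[ℂ] ℂ)) (S : Finset (Fin n)) : Prop :=
  (flat α S).Nonempty ∧
    ∀ i ∈ S, ∀ j, (∀ v ∈ flat α (S.filter (fun k => i ≤ k)), α j v = 0) → i ≤ j

/-- orthogonal representations of `G` on `ℝ^q` -/
def OrthRep (G : Type*) [Group G] (q : ℕ) : Type _ :=
  G →* Matrix.orthogonalGroup (Fin q) ℝ

/-- the matrix of a group element -/
def OrthRep.mat {G : Type*} [Group G] {q : ℕ} (ρ : OrthRep G q) (g : G) :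
    Matrix (Fin q) (Fin q) ℝ :=
  ((show G →* Matrix.orthogonalGroup (Fin q) ℝ from ρ) g : Matrix (Fin q) (Fin q) ℝ)

/-- the topology of pointwise convergence (for a group generated by `k` elements this is the
subspace topology of `O(q)^k`) -/
instance {G : Type*} [Group G] {q : ℕ} : TopologicalSpace (OrthRep G q) :=
  TopologicalSpace.induced (fun (ρ : OrthRep G q) (g : G) => ρ.mat g) inferInstance

end ArrHom
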