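import Mathlib

/-!
Parity of the joint (-1)-eigenspace of a commuting tuple of orthogonal
matrices is locally constant.
-/

namespace ArrHom

open Module Module.End

universe u

section Abstract

variable {E : Type u} [NormedAddCommGroup E] [InnerProductSpace ℝ E] [FiniteDimensional ℝ E]

/-- isometry condition for a linear map -/
def IsIso (B : E →ₗ[ℝ] E) : Prop := ∀ x, ‖B x‖ = ‖x‖

theorem isIso_inner {B : E →ₗ[ℝ] E} (hB : IsIso B) (x y : E) :
    inner ℝ (B x) (B y) = inner ℝ x y := by
  have h : ∀ x, ‖B x‖ = ‖x‖ := hB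
  exact (LinearMap.norm_map_iff_inner_map_map B).1 h x y

theorem isIso_adj {B : E →ₗ[ℝ] E} (hB : IsIso B) (x : E) :
    (LinearMap.adjoint B) (B x) = x := by
  refine ext_inner_right ℝ fun y => ?_
  rw [LinearMap.adjoint_inner_left, isIso_inner hB]

theorem isIso_adj' {B : E →ₗ[ℝ] E} (hB : IsIso B) (x : E) :
    B ((LinearMap.adjoint B) x) = x := by
  have h1 : (LinearMap.adjoint B) ∘ₗ B = LinearMap.id := by
    ext x; simp [isIso_adj hB]
  have h2 : B ∘ₗ (LinearMap.adjoint B) = LinearMap.id :=
    (LinearMap.comp_eq_id_comm ℝ E).1 h1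
  have := congrArg (fun f => f x) h2
  simpa using this

/-- combinatorial parity lemma -/
theorem even_card_of_fibers {n : ℕ} (f : Fin n → ℝ) (p : ℝ → Prop) [DecidablePred p]
    (h : ∀ μ, p μ → Even (Finset.card {i | f i = μ})) :
    Even (Finset.card {i | p (f i)}) := by
  classical
  rw [Finset.card_eq_sum_card_image f]
  refine Finset.even_sum _ fun μ hμ => ?_
  obtain ⟨i, hi, rfl⟩ := Finset.mem_image.1 hμ
  have hp : p (f i) := by simpa using hi
  have := h (f i) hp
  have e : (Finset.filter (fun a => f a = f i) (Finset.filter (fun i => p (f i)) Finset.univ))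
      = Finset.filter (fun a => f a = f i) Finset.univ := by
    ext a
    simp only [Finset.mem_filter, Finset.mem_univ, true_and]
    constructor
    · exact fun h => h.2
    · intro h
      exact ⟨by rw [h]; exact hp, h⟩
  rw [e]
  exact this

/-- if all eigenspaces of a symmetric map are even dimensional, so is the space -/
theorem even_finrank_of_eigenspaces {T : E →ₗ[ℝ] E} (hT : T.IsSymmetric)
    (h : ∀ μ : ℝ, Even (finrank ℝ (eigenspace T μ))) : Even (finrank ℝ E) := by
  classical
  have := even_card_of_fibers (hT.eigenvalues rfl) (fun _ => True) (fun μ _ => by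
    have h' := hT.card_filter_eigenvalues_eq rfl μ
    simp only [RCLike.ofReal_real_eq_id, id_eq] at h'
    rw [h']; exact h μ)
  simpa using this

theorem symm_add_adj (B : E →ₗ[ℝ] E) : (B + LinearMap.adjoint B).IsSymmetric := by
  intro x y
  simp only [LinearMap.add_apply, inner_add_left, inner_add_right,
    LinearMap.adjoint_inner_left, LinearMap.adjoint_inner_right]
  ring

/-- an odd dimensional space with an isometry has an odd dimensional (+1) or (-1) eigenspace -/
theorem odd_eigenspace {B : E →ₗ[ℝ] E} (hB : IsIso B) (hodd : Odd (finrank ℝ E)) :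
    Odd (finrank ℝ (eigenspace B 1)) ∨ Odd (finrank ℝ (eigenspace B (-1))) := by
  by_contra hcon
  push Not at hcon
  obtain ⟨h1, h2⟩ := hcon
  have h1 : Even (finrank ℝ (eigenspace B 1)) := by simpa using h1
  have h2 : Even (finrank ℝ (eigenspace B (-1))) := by simpa using h2
  set S : E →ₗ[ℝ] E := B + LinearMap.adjoint B with hS
  have key : ∀ μ : ℝ, Even (finrank ℝ (eigenspace S μ)) := by
    intro μ
    -- norms
    have hn : ∀ (v : E) (ε : ℝ), ε ^ 2 = 1 → ‖B v - ε • v‖ ^ 2 =
        2 * ‖v‖ ^ 2 - ε * inner ℝ (S v) v := by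
      intro v ε hε
      rw [← real_inner_self_eq_norm_sq, ← real_inner_self_eq_norm_sq]
      simp only [inner_sub_left, inner_sub_right, inner_smul_left, inner_smul_right, hS,
        LinearMap.add_apply, inner_add_left, LinearMap.adjoint_inner_left, isIso_inner hB]
      simp only [conj_trivial]
      rw [real_inner_comm v (B v)]
      linear_combination (inner ℝ v v) * hε
    by_cases hμ2 : μ = 2
    · have : eigenspace S μ = eigenspace B 1 := by
        ext v
        rw [mem_eigenspace_iff, mem_eigenspace_iff]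
        constructor
        · intro hv
          have := hn v 1 (by norm_num)
          rw [hv, hμ2, inner_smul_left, real_inner_self_eq_norm_sq] at this
          simp only [conj_trivial] at this
          have h0 : ‖B v - (1 : ℝ) • v‖ ^ 2 = 0 := by rw [this]; ring
          have h0 := pow_eq_zero_iff (two_ne_zero) |>.1 h0
          exact sub_eq_zero.1 (norm_eq_zero.1 h0)
        · intro hv
          have h3 : LinearMap.adjoint B v = v := by
            have := isIso_adj hB v
            rw [hv, one_smul] at this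
            exact this
          rw [hS, LinearMap.add_apply, hv, h3, hμ2]
          rw [one_smul, two_smul]
      rw [this]; exact h1
    by_cases hμm : μ = -2
    · have : eigenspace S μ = eigenspace B (-1) := by
        ext v
        rw [mem_eigenspace_iff, mem_eigenspace_iff]
        constructor
        · intro hv
          have := hn v (-1) (by norm_num)
          rw [hv, hμm, inner_smul_left, real_inner_self_eq_norm_sq] at this
          simp only [conj_trivial] at this
          have h0 : ‖B v - (-1 : ℝ) • v‖ ^ 2 = 0 := by rw [this]; ring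
          have h0 := pow_eq_zero_iff (two_ne_zero) |>.1 h0
          exact sub_eq_zero.1 (norm_eq_zero.1 h0)
        · intro hv
          have h3 : LinearMap.adjoint B v = -v := by
            have := isIso_adj hB v
            rw [hv, map_smul] at this
            have h4 := congrArg (fun w => (-1 : ℝ) • w) this
            simpa [smul_smul] using h4
          rw [hS, LinearMap.add_apply, hv, h3, hμm]
          module
      rw [this]; exact h2
    -- general eigenvalue
    by_contra hne
    rw [Nat.not_even_iff_odd] at hne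
    -- a nonzero eigenvector
    have hpos : 0 < finrank ℝ (eigenspace S μ) := hne.pos
    have hBinv : ∀ v ∈ eigenspace S μ, B v ∈ eigenspace S μ := by
      intro v hv
      rw [mem_eigenspace_iff] at hv ⊢
      have : S (B v) = B (S v) := by
        simp only [hS, LinearMap.add_apply, map_add, isIso_adj hB, isIso_adj' hB]
      rw [this, hv, map_smul]
    have hAinv : ∀ v ∈ eigenspace S μ, LinearMap.adjoint B v ∈ eigenspace S μ := by
      intro v hv
      rw [mem_eigenspace_iff] at hv ⊢
      have : S (LinearMap.adjoint B v) = LinearMap.adjoint B (S v) := by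
        simp only [hS, LinearMap.add_apply, map_add, isIso_adj hB, isIso_adj' hB]
      rw [this, hv, map_smul]
    have hlt : μ ^ 2 < 4 := by
      have : Nontrivial (eigenspace S μ) := Module.nontrivial_of_finrank_pos hpos
      obtain ⟨⟨v, hv⟩, hv0⟩ := exists_ne (0 : eigenspace S μ)
      have hv0 : v ≠ 0 := fun h => hv0 (by ext; simpa using h)
      have hvn : 0 < ‖v‖ ^ 2 := by positivity
      rw [mem_eigenspace_iff] at hv
      have a1 := hn v 1 (by norm_num)
      have a2 := hn v (-1) (by norm_num)
      rw [hv, inner_smul_left, real_inner_self_eq_norm_sq] at a1 a2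
      simp only [conj_trivial] at a1 a2
      have b1 : 0 ≤ (2 - μ) * ‖v‖ ^ 2 := by
        have := sq_nonneg ‖B v - (1 : ℝ) • v‖
        rw [a1] at this; linarith
      have b2 : 0 ≤ (2 + μ) * ‖v‖ ^ 2 := by
        have := sq_nonneg ‖B v - (-1 : ℝ) • v‖
        rw [a2] at this; linarith
      have c1 : 0 ≤ 2 - μ := nonneg_of_mul_nonneg_left b1 hvn
      have c2 : 0 ≤ 2 + μ := nonneg_of_mul_nonneg_left b2 hvn
      have d1 : 0 < 2 - μ := lt_of_le_of_ne c1 (fun h => hμ2 (by linarith))
      have d2 : 0 < 2 + μ := lt_of_le_of_ne c2 (fun h => hμm (by linarith))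
      nlinarith [mul_pos d1 d2]
    let J : eigenspace S μ →ₗ[ℝ] eigenspace S μ :=
      (B - LinearMap.adjoint B).restrict (fun v hv => by
        rw [LinearMap.sub_apply]; exact Submodule.sub_mem _ (hBinv v hv) (hAinv v hv))
    have hJ : J ∘ₗ J = (μ ^ 2 - 4) • LinearMap.id := by
      ext ⟨v, hv⟩
      have hv' := mem_eigenspace_iff.1 hv
      have e1 : B v + LinearMap.adjoint B v = μ • v := hv'
      have e2 : B (B v) + LinearMap.adjoint B (B v) = μ • B v := by
        have := mem_eigenspace_iff.1 (hBinv v hv); exact this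
      have e3 : B (LinearMap.adjoint B v) + LinearMap.adjoint B (LinearMap.adjoint B v)
          = μ • LinearMap.adjoint B v := by
        have := mem_eigenspace_iff.1 (hAinv v hv); exact this
      have goal : B (B v - LinearMap.adjoint B v) - LinearMap.adjoint B (B v - LinearMap.adjoint B v)
          = (μ ^ 2 - 4) • v := by
        rw [map_sub, map_sub]
        rw [isIso_adj hB] at e2 ⊢
        rw [isIso_adj' hB] at e3 ⊢
        have e4 : B (B v) = μ • B v - v := by rw [← e2]; abel
        have e5 : LinearMap.adjoint B (LinearMap.adjoint B v) = μ • LinearMap.adjoint B v - v := by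
          rw [← e3]; abel
        rw [e4, e5]
        have e6 : LinearMap.adjoint B v = μ • v - B v := by rw [← e1]; abel
        rw [e6]
        module
      simpa [J] using goal
    have hdet := congrArg LinearMap.det hJ
    rw [LinearMap.det_comp, LinearMap.det_smul, LinearMap.det_id, mul_one] at hdet
    have hneg : (μ ^ 2 - 4) ^ finrank ℝ (eigenspace S μ) < 0 :=
      hne.pow_neg (by linarith)
    rw [← hdet] at hneg
    nlinarith [mul_self_nonneg (LinearMap.det J)]
  have := even_finrank_of_eigenspaces (symm_add_adj B) key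
  exact (Nat.not_even_iff_odd.2 hodd) this

/-- commuting isometries of an odd dimensional space have a joint real eigenvector -/
theorem exists_joint {ι : Type*} (s : Finset ι) :
    ∀ (E : Type u) [NormedAddCommGroup E] [InnerProductSpace ℝ E] [FiniteDimensional ℝ E]
      (A : ι → E →ₗ[ℝ] E), (∀ i, IsIso (A i)) → (∀ i j x, A i (A j x) = A j (A i x)) →
      Odd (finrank ℝ E) → ∃ v : E, v ≠ 0 ∧ ∀ i ∈ s, A i v = v ∨ A i v = -v := by
  classical
  induction s using Finset.induction_on with
  | empty =>
    intro E _ _ _ A hA hc hodd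
    have : Nontrivial E := Module.nontrivial_of_finrank_pos (R := ℝ) hodd.pos
    obtain ⟨v, hv⟩ := exists_ne (0 : E)
    exact ⟨v, hv, by simp⟩
  | insert a s has ih =>
    intro E _ _ _ A hA hc hodd
    have main : ∀ ε : ℝ, (ε = 1 ∨ ε = -1) → Odd (finrank ℝ (eigenspace (A a) ε)) →
        ∃ v : E, v ≠ 0 ∧ ∀ i ∈ insert a s, A i v = v ∨ A i v = -v := by
      intro ε hε ho
      have hinv : ∀ i, ∀ v ∈ eigenspace (A a) ε, A i v ∈ eigenspace (A a) ε := by
        intro i v hv
        rw [mem_eigenspace_iff] at hv ⊢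
        rw [hc a i v, hv, map_smul]
      obtain ⟨v, hv0, hv⟩ := ih (eigenspace (A a) ε) (fun i => (A i).restrict (hinv i))
        (fun i x => by
          show ‖(((A i).restrict (hinv i)) x : E)‖ = ‖(x : E)‖
          rw [LinearMap.coe_restrict_apply]; exact hA i x)
        (fun i j x => by
          ext
          simp only [LinearMap.coe_restrict_apply]
          exact hc i j x) ho
      refine ⟨(v : E), fun h => hv0 (by ext; simpa using h), ?_⟩
      intro i hi
      rcases Finset.mem_insert.1 hi with rfl | hi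
      · have := mem_eigenspace_iff.1 v.2
        rcases hε with rfl | rfl
        · left; rw [this, one_smul]
        · right; rw [this]; simp
      · rcases hv i hi with h | h
        · left
          have := congrArg (fun w : eigenspace (A a) ε => (w : E)) h
          simpa using this
        · right
          have := congrArg (fun w : eigenspace (A a) ε => (w : E)) h
          simpa using this
    rcases odd_eigenspace (hA a) hodd with h | h
    · exact main 1 (Or.inl rfl) h
    · exact main (-1) (Or.inr rfl) h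

/-- the operator `H = Σ (2 + A_i + A_i^*)` -/
noncomputable def HH {ι : Type*} [Fintype ι] (A : ι → E →ₗ[ℝ] E) : E →ₗ[ℝ] E :=
  ∑ i, ((2 : ℝ) • LinearMap.id + (A i + LinearMap.adjoint (A i)))

theorem HH_apply {ι : Type*} [Fintype ι] (A : ι → E →ₗ[ℝ] E) (x : E) :
    HH A x = ∑ i, ((2 : ℝ) • x + (A i x + LinearMap.adjoint (A i) x)) := by
  simp [HH, LinearMap.sum_apply]

theorem HH_symm {ι : Type*} [Fintype ι] (A : ι → E →ₗ[ℝ] E) : (HH A).IsSymmetric := by
  intro x y
  rw [HH_apply, HH_apply, sum_inner, inner_sum]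
  refine Finset.sum_congr rfl fun i _ => ?_
  have := symm_add_adj (A i) x y
  simp only [LinearMap.add_apply] at this
  rw [inner_add_left, inner_add_right, this, inner_smul_left, inner_smul_right]
  simp

theorem HH_inner {ι : Type*} [Fintype ι] {A : ι → E →ₗ[ℝ] E} (hA : ∀ i, IsIso (A i)) (x : E) :
    inner ℝ (HH A x) x = ∑ i, ‖A i x + x‖ ^ 2 := by
  rw [HH_apply, sum_inner]
  refine Finset.sum_congr rfl fun i _ => ?_
  rw [← real_inner_self_eq_norm_sq]
  simp only [inner_add_left, inner_add_right, LinearMap.adjoint_inner_left, isIso_inner (hA i),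
    inner_smul_left, conj_trivial]
  ring

/-- the joint `(-1)`-eigenspace -/
def jm {ι : Type*} (A : ι → E →ₗ[ℝ] E) : Submodule ℝ E := ⨅ i, eigenspace (A i) (-1)

theorem eigenspace_HH_zero {ι : Type*} [Fintype ι] {A : ι → E →ₗ[ℝ] E}
    (hA : ∀ i, IsIso (A i)) : eigenspace (HH A) 0 = jm A := by
  ext v
  rw [mem_eigenspace_iff, jm, Submodule.mem_iInf]
  constructor
  · intro hv i
    have h := HH_inner hA v
    rw [hv, zero_smul, inner_zero_left] at h
    have h' := (Finset.sum_eq_zero_iff_of_nonneg (fun i _ => sq_nonneg _)).1 h.symm i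
      (Finset.mem_univ i)
    have h' := pow_eq_zero_iff (two_ne_zero) |>.1 h'
    have h' := norm_eq_zero.1 h'
    rw [mem_eigenspace_iff, neg_one_smul]
    exact eq_neg_of_add_eq_zero_left h'
  · intro hv
    rw [HH_apply, zero_smul]
    refine Finset.sum_eq_zero fun i _ => ?_
    have h1 := mem_eigenspace_iff.1 (hv i)
    have h3 : LinearMap.adjoint (A i) v = -v := by
      have := isIso_adj (hA i) v
      rw [h1, map_smul] at this
      have h4 := congrArg (fun w => (-1 : ℝ) • w) this
      simpa [smul_smul] using h4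
    rw [h1, h3]
    module

theorem eigenspace_HH_even {ι : Type*} [Fintype ι] {A : ι → E →ₗ[ℝ] E}
    (hA : ∀ i, IsIso (A i)) (hc : ∀ i j x, A i (A j x) = A j (A i x)) {μ : ℝ}
    (h4 : μ < 4) (h0 : μ ≠ 0) : Even (finrank ℝ (eigenspace (HH A) μ)) := by
  by_contra hne
  rw [Nat.not_even_iff_odd] at hne
  -- invariance
  have hadj : ∀ i j x, LinearMap.adjoint (A i) (A j x) = A j (LinearMap.adjoint (A i) x) := by
    intro i j x
    have h1 : A i (LinearMap.adjoint (A i) (A j x)) = A i (A j (LinearMap.adjoint (A i) x)) := by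
      rw [isIso_adj' (hA i), hc i j, isIso_adj' (hA i)]
    have h2 := congrArg (LinearMap.adjoint (A i)) h1
    rwa [isIso_adj (hA i), isIso_adj (hA i)] at h2
  have hinv : ∀ i, ∀ v ∈ eigenspace (HH A) μ, A i v ∈ eigenspace (HH A) μ := by
    intro i v hv
    rw [mem_eigenspace_iff] at hv ⊢
    have : HH A (A i v) = A i (HH A v) := by
      rw [HH_apply, HH_apply, map_sum]
      refine Finset.sum_congr rfl fun j _ => ?_
      rw [map_add, map_add, map_smul, hadj j i, hc j i]
    rw [this, hv, map_smul]
  obtain ⟨v, hv0, hv⟩ := exists_joint Finset.univ (eigenspace (HH A) μ)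
    (fun i => (A i).restrict (hinv i))
    (fun i x => by
      show ‖(((A i).restrict (hinv i)) x : E)‖ = ‖(x : E)‖
      rw [LinearMap.coe_restrict_apply]; exact hA i x)
    (fun i j x => by
      ext
      simp only [LinearMap.coe_restrict_apply]
      exact hc i j x) hne
  have hv0 : (v : E) ≠ 0 := fun h => hv0 (by ext; simpa using h)
  have hvn : 0 < ‖(v : E)‖ ^ 2 := by positivity
  have hv' : ∀ i, A i (v : E) = v ∨ A i (v : E) = -v := by
    intro i
    rcases hv i (Finset.mem_univ i) with h | h
    · left
      have := congrArg (fun w : eigenspace (HH A) μ => (w : E)) h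
      simpa using this
    · right
      have := congrArg (fun w : eigenspace (HH A) μ => (w : E)) h
      simpa using this
  have hin := HH_inner hA (v : E)
  have hve := mem_eigenspace_iff.1 v.2
  rw [hve, inner_smul_left, real_inner_self_eq_norm_sq] at hin
  simp only [conj_trivial] at hin
  by_cases hex : ∃ i, A i (v : E) = v
  · obtain ⟨i, hi⟩ := hex
    have h1 : ‖A i (v : E) + v‖ ^ 2 ≤ ∑ j, ‖A j (v : E) + v‖ ^ 2 :=
      Finset.single_le_sum (f := fun j => ‖A j (v : E) + v‖ ^ 2)
        (fun j _ => sq_nonneg _) (Finset.mem_univ i)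
    rw [← hin, hi] at h1
    have h2 : ‖(v : E) + v‖ ^ 2 = 4 * ‖(v : E)‖ ^ 2 := by
      rw [← two_smul ℝ (v : E), norm_smul]
      norm_num
      ring
    rw [h2] at h1
    have : μ * ‖(v : E)‖ ^ 2 < 4 * ‖(v : E)‖ ^ 2 := mul_lt_mul_of_pos_right h4 hvn
    linarith
  · push Not at hex
    have : ∑ j, ‖A j (v : E) + v‖ ^ 2 = 0 := by
      refine Finset.sum_eq_zero fun j _ => ?_
      rw [(hv' j).resolve_left (hex j)]
      simp
    rw [this] at hin
    rcases mul_eq_zero.1 hin with h | h
    · exact h0 h
    · exact hvn.ne' h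

/-- sign of the determinant of `H - t` -/
theorem det_sign {ι : Type*} [Fintype ι] {A : ι → E →ₗ[ℝ] E}
    (hA : ∀ i, IsIso (A i)) (hc : ∀ i j x, A i (A j x) = A j (A i x)) {t : ℝ}
    (ht0 : 0 < t) (ht4 : t < 4) (hdet : LinearMap.det (HH A - t • LinearMap.id) ≠ 0) :
    0 < (-1 : ℝ) ^ finrank ℝ (jm A) * LinearMap.det (HH A - t • LinearMap.id) := by
  classical
  set T : E →ₗ[ℝ] E := HH A - t • LinearMap.id with hT
  have hTs : T.IsSymmetric := by
    intro x y
    rw [hT]
    simp only [LinearMap.sub_apply, LinearMap.smul_apply, LinearMap.id_apply, inner_sub_left,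
      inner_sub_right, HH_symm A x y, inner_smul_left, inner_smul_right, conj_trivial]
  have heig : ∀ ν : ℝ, eigenspace T ν = eigenspace (HH A) (ν + t) := by
    intro ν
    ext v
    rw [mem_eigenspace_iff, mem_eigenspace_iff, hT]
    simp only [LinearMap.sub_apply, LinearMap.smul_apply, LinearMap.id_apply]
    rw [add_smul, sub_eq_iff_eq_add]
  rw [hTs.det_eq_prod_eigenvalues rfl] at hdet ⊢
  set f := hTs.eigenvalues rfl with hf
  have hfib : ∀ ν : ℝ, Finset.card {i | f i = ν} = finrank ℝ (eigenspace (HH A) (ν + t)) := by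
    intro ν
    have h' := hTs.card_filter_eigenvalues_eq rfl ν
    simp only [RCLike.ofReal_real_eq_id, id_eq] at h'
    rw [hf, h', heig]
  have hne : ∀ i, f i ≠ 0 := by
    intro i h
    apply hdet
    exact Finset.prod_eq_zero (Finset.mem_univ i) (by simp [h])
  -- negative eigenvalues
  have hA1 : Even (Finset.card {i | f i < 0 ∧ f i ≠ -t}) := by
    refine even_card_of_fibers f (fun μ => μ < 0 ∧ μ ≠ -t) ?_
    rintro ν ⟨hν, hν'⟩
    rw [hfib]
    exact eigenspace_HH_even hA hc (by linarith) (fun h => hν' (by linarith))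
  have hA2 : Finset.card {i | f i = -t} = finrank ℝ (jm A) := by
    rw [hfib, neg_add_cancel, eigenspace_HH_zero hA]
  have hsplit : Finset.card {i | f i < 0} =
      Finset.card {i | f i < 0 ∧ f i ≠ -t} + Finset.card {i | f i = -t} := by
    rw [← Finset.card_union_of_disjoint]
    · congr 1
      ext i
      simp only [Finset.mem_filter, Finset.mem_univ, true_and, Finset.mem_union]
      constructor
      · intro h
        by_cases h' : f i = -t
        · right; exact h'
        · left; exact ⟨h, h'⟩
      · rintro (h | h)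
        · exact h.1
        · rw [h]; linarith
    · rw [Finset.disjoint_left]
      intro i hi hi'
      simp only [Finset.mem_filter, Finset.mem_univ, true_and] at hi hi'
      exact hi.2 hi'
  -- sign of the product
  have hprod : ∏ i, ((f i : ℝ)) = (-1) ^ (Finset.card {i | f i < 0}) * ∏ i, |f i| := by
    rw [← Finset.prod_const, Finset.prod_filter, ← Finset.prod_mul_distrib]
    refine Finset.prod_congr rfl fun i _ => ?_
    split_ifs with h
    · rw [abs_of_neg h]; ring
    · rw [abs_of_nonneg (not_lt.1 h)]; ring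
  have hpos : 0 < ∏ i, |f i| := Finset.prod_pos fun i _ => abs_pos.2 (hne i)
  have hp : (-1 : ℝ) ^ (Finset.card {i | f i < 0}) = (-1) ^ finrank ℝ (jm A) := by
    rw [hsplit, pow_add, hA1.neg_one_pow, one_mul, hA2]
  have hcast : (∏ i, ((f i : ℝ) : ℝ)) = ∏ i, f i := rfl
  simp only [RCLike.ofReal_real_eq_id, id_eq] at *
  rw [hprod, hp, ← mul_assoc, ← pow_add, ← two_mul, pow_mul]
  simpa using hpos

end Abstract

section Topological

open Topology

variable {q : ℕ} {ι : Type*}

theorem isIso_toEuclideanLin {M : Matrix (Fin q) (Fin q) ℝ}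
    (hM : M ∈ Matrix.orthogonalGroup (Fin q) ℝ) : IsIso (Matrix.toEuclideanLin M) := by
  intro v
  have h1 : Matrix.toEuclideanLin (Matrix.conjTranspose M) = (Matrix.toEuclideanLin M).adjoint :=
    Matrix.toEuclideanLin_conjTranspose_eq_adjoint M
  have h2 : inner ℝ (Matrix.toEuclideanLin M v) (Matrix.toEuclideanLin M v) = inner ℝ v v := by
    rw [← LinearMap.adjoint_inner_left, ← h1]
    congr 1
    have h3 : (Matrix.conjTranspose M) * M = 1 := by
      have := (Matrix.mem_orthogonalGroup_iff' (Fin q) ℝ).1 hM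
      simpa using this
    rw [Matrix.toEuclideanLin_apply, Matrix.toEuclideanLin_apply]
    simp only [Matrix.mulVec_mulVec, h3, Matrix.one_mulVec]
  rw [real_inner_self_eq_norm_sq, real_inner_self_eq_norm_sq] at h2
  exact (sq_eq_sq₀ (norm_nonneg _) (norm_nonneg _)).1 h2

/-- the matrix of `H` -/
noncomputable def Hmat {κ : Type*} [Fintype κ] (A : κ → Matrix (Fin q) (Fin q) ℝ) (t : ℝ) :
    Matrix (Fin q) (Fin q) ℝ :=
  (∑ i, ((2 : ℝ) • (1 : Matrix (Fin q) (Fin q) ℝ) + (A i + (A i).conjTranspose))) - t • 1

theorem toEuclideanLin_Hmat {κ : Type*} [Fintype κ] (A : κ → Matrix (Fin q) (Fin q) ℝ) (t : ℝ) :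
    Matrix.toEuclideanLin (Hmat A t)
      = HH (fun i => Matrix.toEuclideanLin (A i)) - t • LinearMap.id := by
  have h1 : Matrix.toEuclideanLin (1 : Matrix (Fin q) (Fin q) ℝ) = LinearMap.id := by
    ext v
    simp
  rw [Hmat, HH, map_sub, map_smul, map_sum, h1]
  congr 1
  refine Finset.sum_congr rfl fun i _ => ?_
  rw [map_add, map_add, map_smul, h1, Matrix.toEuclideanLin_conjTranspose_eq_adjoint]

theorem det_toEuclideanLin (M : Matrix (Fin q) (Fin q) ℝ) :
    LinearMap.det (Matrix.toEuclideanLin M) = M.det := by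
  rw [Matrix.toEuclideanLin_eq_toLin, LinearMap.det_toLin]

/-- the joint `-1` eigenspace of the matrices `A i`, `i ∈ S` -/
def jointNeg (S : Finset ι) (A : ι → Matrix (Fin q) (Fin q) ℝ) :
    Submodule ℝ (Fin q → ℝ) :=
  ⨅ i ∈ S, LinearMap.ker ((A i).mulVecLin + LinearMap.id)

theorem finrank_jointNeg (S : Finset ι) (A : ι → Matrix (Fin q) (Fin q) ℝ) :
    finrank ℝ (jm (fun i : S => Matrix.toEuclideanLin (A i))) = finrank ℝ (jointNeg S A) := by
  have h : (jm (fun i : S => Matrix.toEuclideanLin (A i))).map
      ((WithLp.linearEquiv 2 ℝ (Fin q → ℝ)) : EuclideanSpace ℝ (Fin q) →ₗ[ℝ] (Fin q → ℝ))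
      = jointNeg S A := by
    ext v
    rw [Submodule.mem_map]
    constructor
    · rintro ⟨w, hw, rfl⟩
      rw [jointNeg, Submodule.mem_iInf]
      intro i
      rw [Submodule.mem_iInf]
      intro hi
      rw [jm, Submodule.mem_iInf] at hw
      have := mem_eigenspace_iff.1 (hw ⟨i, hi⟩)
      have h2 := congrArg WithLp.ofLp this
      rw [LinearMap.mem_ker, LinearMap.add_apply, LinearMap.id_apply, Matrix.mulVecLin_apply]
      simp only [Matrix.ofLp_toEuclideanLin_apply] at h2
      show (A i).mulVec (WithLp.ofLp w) + WithLp.ofLp w = 0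
      rw [h2]
      simp
    · intro hv
      refine ⟨WithLp.toLp 2 v, ?_, rfl⟩
      rw [jm, Submodule.mem_iInf]
      rintro ⟨i, hi⟩
      rw [jointNeg, Submodule.mem_iInf] at hv
      have h1 := hv i
      rw [Submodule.mem_iInf] at h1
      have h1 := h1 hi
      rw [LinearMap.mem_ker, LinearMap.add_apply, LinearMap.id_apply, Matrix.mulVecLin_apply] at h1
      rw [mem_eigenspace_iff, Matrix.toEuclideanLin_apply]
      show WithLp.toLp 2 ((A i).mulVec v) = (-1 : ℝ) • WithLp.toLp 2 v
      rw [eq_neg_of_add_eq_zero_left h1]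
      simp
  rw [← h]
  exact (LinearEquiv.finrank_map_eq (WithLp.linearEquiv 2 ℝ (Fin q → ℝ)) _).symm

theorem C_parity (S : Finset ι) {X : Type*} [TopologicalSpace X]
    (A : X → ι → Matrix (Fin q) (Fin q) ℝ) (hA : Continuous A)
    (horth : ∀ x, ∀ i ∈ S, A x i ∈ Matrix.orthogonalGroup (Fin q) ℝ)
    (hcomm : ∀ x, ∀ i ∈ S, ∀ j ∈ S, Commute (A x i) (A x j)) :
    IsLocallyConstant (fun x => Module.finrank ℝ (jointNeg S (A x)) % 2) := by
  classical
  set B : X → S → EuclideanSpace ℝ (Fin q) →ₗ[ℝ] EuclideanSpace ℝ (Fin q) :=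
    fun x i => Matrix.toEuclideanLin (A x i) with hB
  have hiso : ∀ x i, IsIso (B x i) := fun x i => isIso_toEuclideanLin (horth x i i.2)
  have hc : ∀ x i j v, B x i (B x j v) = B x j (B x i v) := by
    intro x i j v
    simp only [hB, Matrix.toEuclideanLin_apply, Matrix.mulVec_mulVec]
    rw [(hcomm x i i.2 j j.2).eq]
  have hfr : ∀ x, finrank ℝ (jointNeg S (A x)) = finrank ℝ (jm (B x)) :=
    fun x => (finrank_jointNeg S (A x)).symm
  have hD : ∀ (x : X) (t : ℝ), LinearMap.det (HH (B x) - t • LinearMap.id)
      = (Hmat (fun i : S => A x i) t).det := by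
    intro x t
    rw [← det_toEuclideanLin, toEuclideanLin_Hmat]
  have hcont : ∀ t, Continuous fun x => (Hmat (fun i : S => A x i) t).det := by
    intro t
    refine Continuous.matrix_det ?_
    unfold Hmat
    refine Continuous.sub (continuous_finset_sum _ fun i _ => ?_) continuous_const
    have h1 : Continuous fun x => A x (i : ι) := (continuous_apply (i : ι)).comp hA
    exact continuous_const.add (h1.add h1.matrix_conjTranspose)
  rw [IsLocallyConstant.iff_eventually_eq]
  intro x
  -- choose t
  obtain ⟨t, ht, htne⟩ : ∃ t ∈ Set.Ioo (0 : ℝ) 4, (Hmat (fun i : S => A x i) t).det ≠ 0 := by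
    have hfin : {t : ℝ | (Hmat (fun i : S => A x i) t).det = 0}.Finite := by
      refine (Module.End.finite_hasEigenvalue (HH (B x))).subset ?_
      intro t ht
      rw [Set.mem_setOf_eq, ← hD] at ht
      rw [Set.mem_setOf_eq, Module.End.hasEigenvalue_iff, ← bot_lt_iff_ne_bot]
      have h1 := LinearMap.bot_lt_ker_of_det_eq_zero ht
      have h2 : LinearMap.ker (HH (B x) - t • LinearMap.id) ≤ eigenspace (HH (B x)) t := by
        intro v hv
        rw [mem_eigenspace_iff]
        rw [LinearMap.mem_ker, LinearMap.sub_apply, LinearMap.smul_apply, LinearMap.id_apply] at hv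
        exact sub_eq_zero.1 hv
      exact lt_of_lt_of_le h1 h2
    obtain ⟨t, ht, h2⟩ := (Set.Ioo_infinite (show (0 : ℝ) < 4 by norm_num)).exists_notMem_finite hfin
    exact ⟨t, ht, h2⟩
  have hsx := det_sign (hiso x) (hc x) ht.1 ht.2 (by rw [hD]; exact htne)
  have key : ∀ y, 0 < (Hmat (fun i : S => A y i) t).det * (Hmat (fun i : S => A x i) t).det →
      finrank ℝ (jointNeg S (A y)) % 2 = finrank ℝ (jointNeg S (A x)) % 2 := by
    intro y hy
    have hne : (Hmat (fun i : S => A y i) t).det ≠ 0 := fun h => by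
      rw [h, zero_mul] at hy; exact lt_irrefl _ hy
    have hsy := det_sign (hiso y) (hc y) ht.1 ht.2 (by rw [hD]; exact hne)
    rw [hfr, hfr]
    rw [hD] at hsx hsy
    have h3 := mul_pos hsx hsy
    rcases Nat.even_or_odd (finrank ℝ (jm (B x))) with h1 | h1 <;>
    rcases Nat.even_or_odd (finrank ℝ (jm (B y))) with h2 | h2
    · rw [Nat.even_iff.1 h1, Nat.even_iff.1 h2]
    · rw [h1.neg_one_pow, h2.neg_one_pow] at h3
      nlinarith
    · rw [h1.neg_one_pow, h2.neg_one_pow] at h3
      nlinarith
    · rw [Nat.odd_iff.1 h1, Nat.odd_iff.1 h2]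
  have hopen : ∀ᶠ y in 𝓝 x, 0 < (Hmat (fun i : S => A y i) t).det *
      (Hmat (fun i : S => A x i) t).det := by
    have h4 : Continuous fun y => (Hmat (fun i : S => A y i) t).det *
      (Hmat (fun i : S => A x i) t).det := (hcont t).mul continuous_const
    have h5 : 0 < (Hmat (fun i : S => A x i) t).det * (Hmat (fun i : S => A x i) t).det :=
      mul_self_pos.2 htne
    exact h4.continuousAt.eventually (lt_mem_nhds h5)
  exact hopen.mono fun y hy => key y hy

end Topological

end ArrHom
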