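import Mathlib
set_option autoImplicit false

open scoped unitInterval

namespace ArrHom

section Wind

variable {M : Type*} [TopologicalSpace M]

/-- A lift of `f ∘ γ` through the exponential map. -/
theorem exists_log_lift (f : M → ℂ) (hf : Continuous f) (h0 : ∀ v, f v ≠ 0) {x y : M}
    (γ : Path x y) : ∃ L : I → ℂ, Continuous L ∧ ∀ t, Complex.exp (L t) = f (γ t) := by
  let F : C(M, {z : ℂ // z ≠ 0}) := ⟨fun v => ⟨f v, h0 v⟩, hf.subtype_mk _⟩
  obtain ⟨Γ, h1, -⟩ := Complex.isCoveringMap_exp.exists_path_lifts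
    (F.comp ⟨γ, γ.continuous⟩) (Complex.log (f x)) (by
      apply Subtype.ext
      simp only [ContinuousMap.comp_apply, ContinuousMap.coe_mk, F]
      rw [Complex.exp_log (h0 x), γ.source])
  refine ⟨Γ, Γ.continuous, fun t => ?_⟩
  have := congrFun h1 t
  exact congrArg Subtype.val this

/-- Two log lifts have the same increment. -/
theorem lift_unique (L L' : I → ℂ) (hL : Continuous L) (hL' : Continuous L')
    (h : ∀ t, Complex.exp (L t) = Complex.exp (L' t)) : L 1 - L 0 = L' 1 - L' 0 := by
  have h1 : (fun t => L t) = fun t => L' t + (L 0 - L' 0) := by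
    apply Complex.isCoveringMap_exp.eq_of_comp_eq hL (hL'.add continuous_const) _ (0 : I)
    · simp
    · funext t
      apply Subtype.ext
      change Complex.exp (L t) = Complex.exp (L' t + (L 0 - L' 0))
      rw [Complex.exp_add, Complex.exp_sub, h 0, div_self (Complex.exp_ne_zero _), mul_one, h t]
  have h2 := congrFun h1 1
  change L 1 = L' 1 + (L 0 - L' 0) at h2
  rw [h2]
  ring

variable (f : M → ℂ) (hf : Continuous f) (h0 : ∀ v, f v ≠ 0)

/-- The total increment of `log f` along a path. -/
noncomputable def inc {x y : M} (γ : Path x y) : ℂ :=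
  (exists_log_lift f hf h0 γ).choose 1 - (exists_log_lift f hf h0 γ).choose 0

theorem inc_eq {x y : M} (γ : Path x y) (L : I → ℂ) (hL : Continuous L)
    (h : ∀ t, Complex.exp (L t) = f (γ t)) : L 1 - L 0 = inc f hf h0 γ := by
  have h1 := (exists_log_lift f hf h0 γ).choose_spec
  exact lift_unique L _ hL h1.1 (fun t => by rw [h, h1.2])

theorem inc_trans {x y z : M} (γ : Path x y) (γ' : Path y z) :
    inc f hf h0 (γ.trans γ') = inc f hf h0 γ + inc f hf h0 γ' := by
  obtain ⟨L, hL, hexp⟩ := exists_log_lift f hf h0 (γ.trans γ')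
  have hhalf : ∀ t : I, (t : ℝ) / 2 ∈ Set.Icc (0 : ℝ) 1 := fun t =>
    ⟨by have := t.2.1; linarith, by have := t.2.2; linarith⟩
  have hhalf' : ∀ t : I, ((t : ℝ) + 1) / 2 ∈ Set.Icc (0 : ℝ) 1 := fun t =>
    ⟨by have := t.2.1; linarith, by have := t.2.2; linarith⟩
  have e1 : L ⟨((1 : I) : ℝ) / 2, hhalf 1⟩ - L ⟨((0 : I) : ℝ) / 2, hhalf 0⟩ = inc f hf h0 γ := by
    refine inc_eq f hf h0 γ (fun t => L ⟨(t : ℝ) / 2, hhalf t⟩) ?_ ?_
    · exact hL.comp (by fun_prop)
    · intro t
      rw [hexp, Path.trans_apply]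
      have : (t : ℝ) / 2 ≤ 1 / 2 := by have := t.2.2; linarith
      simp only [this, dite_true]
      congr 2
      apply Subtype.ext
      simp only
      ring
  have e2 : L ⟨(((1 : I) : ℝ) + 1) / 2, hhalf' 1⟩ - L ⟨(((0 : I) : ℝ) + 1) / 2, hhalf' 0⟩ =
      inc f hf h0 γ' := by
    refine inc_eq f hf h0 γ' (fun t => L ⟨((t : ℝ) + 1) / 2, hhalf' t⟩) ?_ ?_
    · exact hL.comp (by fun_prop)
    · intro t
      rw [hexp, Path.trans_apply]
      by_cases h : ((t : ℝ) + 1) / 2 ≤ 1 / 2
      · have ht : t = 0 := by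
          apply Subtype.ext
          have := t.2.1
          simp only [Set.Icc.coe_zero]
          linarith
        subst ht
        simp only [Set.Icc.coe_zero, zero_add, le_refl, dite_true]
        rw [γ'.source]
        congr 1
        convert γ.target using 2
        apply Subtype.ext
        simp
      · simp only [h, dite_false]
        congr 2
        apply Subtype.ext
        simp only
        ring
  have e3 := inc_eq f hf h0 (γ.trans γ') L hL hexp
  rw [← e1, ← e2, ← e3]
  have a1 : (⟨((1 : I) : ℝ) / 2, hhalf 1⟩ : I) = ⟨(((0 : I) : ℝ) + 1) / 2, hhalf' 0⟩ := by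
    apply Subtype.ext; simp
  have a2 : (⟨((0 : I) : ℝ) / 2, hhalf 0⟩ : I) = 0 := by
    apply Subtype.ext; simp
  have a3 : (⟨(((1 : I) : ℝ) + 1) / 2, hhalf' 1⟩ : I) = 1 := by
    apply Subtype.ext; simp
  rw [a1, a2, a3]
  ring

theorem inc_symm {x y : M} (γ : Path x y) : inc f hf h0 γ.symm = - inc f hf h0 γ := by
  obtain ⟨L, hL, hexp⟩ := exists_log_lift f hf h0 γ
  rw [← inc_eq f hf h0 γ L hL hexp]
  rw [← inc_eq f hf h0 γ.symm (fun t => L (unitInterval.symm t))
    (hL.comp unitInterval.continuous_symm) (fun t => by rw [hexp]; rfl)]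
  simp

theorem inc_homotopic {x y : M} (γ γ' : Path x y) (h : γ.Homotopic γ') :
    inc f hf h0 γ = inc f hf h0 γ' := by
  let F : C(M, {z : ℂ // z ≠ 0}) := ⟨fun v => ⟨f v, h0 v⟩, hf.subtype_mk _⟩
  have hh := h.map F
  have key : ∀ (δ : Path x y), (δ.map F.continuous : C(I, {z : ℂ // z ≠ 0})) 0 =
      ⟨Complex.exp (Complex.log (f x)), Complex.exp_ne_zero _⟩ := by
    intro δ
    apply Subtype.ext
    change f (δ 0) = Complex.exp (Complex.log (f x))
    rw [δ.source, Complex.exp_log (h0 x)]
  have h1 := Complex.isCoveringMap_exp.liftPath_apply_one_eq_of_homotopicRel hh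
    (Complex.log (f x)) (key γ) (key γ')
  have h2 : ∀ (δ : Path x y), inc f hf h0 δ = Complex.isCoveringMap_exp.liftPath
      (δ.map F.continuous : C(I, {z : ℂ // z ≠ 0})) (Complex.log (f x)) (key δ) 1 -
      Complex.log (f x) := by
    intro δ
    have h3 := Complex.isCoveringMap_exp.liftPath_lifts
      (δ.map F.continuous : C(I, {z : ℂ // z ≠ 0})) (Complex.log (f x)) (key δ)
    have h4 := Complex.isCoveringMap_exp.liftPath_zero
      (δ.map F.continuous : C(I, {z : ℂ // z ≠ 0})) (Complex.log (f x)) (key δ)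
    have h5 := inc_eq f hf h0 δ (fun t => Complex.isCoveringMap_exp.liftPath
      (δ.map F.continuous : C(I, {z : ℂ // z ≠ 0})) (Complex.log (f x)) (key δ) t)
      (ContinuousMap.continuous _) (fun t => congrArg Subtype.val (congrFun h3 t))
    rw [← h5, h4]
  rw [h2, h2]
  exact congrArg (fun z => z - Complex.log (f x)) h1

theorem inc_loop {x : M} (γ : Path x x) : ∃ n : ℤ, inc f hf h0 γ = n * (2 * Real.pi * Complex.I) := by
  obtain ⟨L, hL, hexp⟩ := exists_log_lift f hf h0 γ
  rw [← inc_eq f hf h0 γ L hL hexp]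
  apply Complex.exp_eq_one_iff.1
  rw [Complex.exp_sub, hexp, hexp, γ.source, γ.target, div_self (h0 x)]

end Wind

theorem A_wind {M : Type*} [TopologicalSpace M] (f : M → ℂ) (hf : Continuous f)
    (h0 : ∀ v, f v ≠ 0) (x : M) :
    ∃ w : FundamentalGroup M x →* Multiplicative ℤ,
      ∀ (y : M) (p : Path x y) (γ : Path y y) (L : I → ℂ) (k : ℤ), Continuous L →
        (∀ t, Complex.exp (L t) = f (γ t)) →
        L 1 - L 0 = k * (2 * Real.pi * Complex.I) →
        w (FundamentalGroup.fromPath (Path.Homotopic.Quotient.mk ((p.trans γ).trans p.symm)))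
          = Multiplicative.ofAdd k := by
  classical
  choose n hn using inc_loop f hf h0 (x := x)
  have hinj : ∀ a b : ℤ, (a : ℂ) * (2 * Real.pi * Complex.I) = b * (2 * Real.pi * Complex.I) →
      a = b := by
    intro a b h
    have := mul_right_cancel₀ Complex.two_pi_I_ne_zero h
    exact_mod_cast this
  have hhom : ∀ γ γ' : Path x x, γ.Homotopic γ' → n γ = n γ' := by
    intro γ γ' h
    apply hinj
    rw [← hn, ← hn]
    exact inc_homotopic f hf h0 γ γ' h
  let W : Path.Homotopic.Quotient x x → ℤ := Quotient.lift n hhom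
  have hW : ∀ γ : Path x x, W (Path.Homotopic.Quotient.mk γ) = n γ := fun γ => rfl
  refine ⟨{ toFun := fun g => Multiplicative.ofAdd (W g), map_one' := ?_, map_mul' := ?_ }, ?_⟩
  · have h1 : n (Path.refl x) = 0 := by
      apply hinj
      rw [← hn]
      rw [← inc_eq f hf h0 (Path.refl x) (fun _ => Complex.log (f x)) continuous_const
        (fun t => by rw [Complex.exp_log (h0 x)]; rfl)]
      simp
    change Multiplicative.ofAdd (n (Path.refl x)) = 1
    rw [h1]
    rfl
  · intro g h
    induction g using Path.Homotopic.Quotient.ind with | mk g =>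
    induction h using Path.Homotopic.Quotient.ind with | mk h =>
    have h1 : n (h.trans g) = n g + n h := by
      apply hinj
      rw [← hn, inc_trans, hn, hn]
      push_cast
      ring
    change Multiplicative.ofAdd (n (h.trans g)) = Multiplicative.ofAdd (n g) * Multiplicative.ofAdd (n h)
    rw [h1]
    rfl
  · intro y p γ L k hL hexp hk
    change Multiplicative.ofAdd (n ((p.trans γ).trans p.symm)) = Multiplicative.ofAdd k
    congr 1
    apply hinj
    rw [← hn, inc_trans, inc_trans, inc_symm, ← inc_eq f hf h0 γ L hL hexp, hk]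
    ring

end ArrHom
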