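import Mathlib
import Pool.Agent.Lib.MP_cd8289_gt.Defs
import Pool.Agent.Lib.MP_cd8289_gt.Wind
import Pool.Agent.Lib.MP_cd8289_gt.Parity

set_option autoImplicit false

open scoped unitInterval

namespace ArrHom

theorem flat_anti {l n : ℕ} (α : Fin n → ((Fin l → ℂ) →ᵃ[ℂ] ℂ)) {S T : Finset (Fin n)}
    (h : S ⊆ T) : flat α T ⊆ flat α S := fun _ hv j hj => hv j (h hj)

theorem affine_line {l : ℕ} (f : (Fin l → ℂ) →ᵃ[ℂ] ℂ) (q r : Fin l → ℂ) (t : ℂ) :
    f (AffineMap.lineMap q r t) = f q + t * (f r - f q) := by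
  rw [AffineMap.apply_lineMap, AffineMap.lineMap_apply]
  simp only [vsub_eq_sub, smul_eq_mul, vadd_eq_add]
  ring

theorem line_zero {l : ℕ} (f : (Fin l → ℂ) →ᵃ[ℂ] ℂ) (q r : Fin l → ℂ) (t : ℂ)
    (h : f q ≠ 0 ∨ f r ≠ 0) (hz : f (AffineMap.lineMap q r t) = 0) :
    t = - f q / (f r - f q) := by
  rw [affine_line] at hz
  by_cases hd : f r - f q = 0
  · exfalso
    rw [hd] at hz
    have h1 : f q = 0 := by simpa using hz
    have h2 : f r = 0 := by
      have := sub_eq_zero.mp hd
      rw [this, h1]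
    rcases h with h | h
    · exact h h1
    · exact h h2
  · field_simp
    linear_combination hz

theorem D1_generic {l n : ℕ} (α : Fin n → ((Fin l → ℂ) →ᵃ[ℂ] ℂ)) (S : Finset (Fin n))
    (hS : (flat α S).Nonempty) :
    ∃ q ∈ flat α S, ∀ j, (¬ ∀ v ∈ flat α S, α j v = 0) → α j q ≠ 0 := by
  classical
  have key : ∀ J : Finset (Fin n), ∃ q ∈ flat α S, ∀ j ∈ J,
      (¬ ∀ v ∈ flat α S, α j v = 0) → α j q ≠ 0 := by
    intro J
    induction J using Finset.induction_on with
    | empty =>
      obtain ⟨q, hq⟩ := hS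
      exact ⟨q, hq, by simp⟩
    | insert j0 J hj0 ih =>
      obtain ⟨q, hq, hqJ⟩ := ih
      by_cases h0 : ∀ v ∈ flat α S, α j0 v = 0
      · refine ⟨q, hq, fun j hj hn => ?_⟩
        rcases Finset.mem_insert.mp hj with rfl | hj
        · exact absurd h0 hn
        · exact hqJ j hj hn
      · have h0' := h0
        push Not at h0'
        obtain ⟨r, hr, hr0⟩ := h0'
        let bad : Finset ℂ := Finset.univ.image (fun j : Fin n => - α j q / (α j r - α j q))
        obtain ⟨t, ht⟩ := Infinite.exists_notMem_finset bad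
        refine ⟨AffineMap.lineMap q r t, ?_, ?_⟩
        · intro j hj
          rw [affine_line, hq j hj, hr j hj]
          ring
        · intro j hj hn hz
          apply ht
          apply Finset.mem_image.mpr
          refine ⟨j, Finset.mem_univ _, ?_⟩
          refine (line_zero (α j) q r t ?_ hz).symm
          rcases Finset.mem_insert.mp hj with rfl | hj
          · right; exact hr0
          · left; exact hqJ j hj hn
  obtain ⟨q, hq, h⟩ := key Finset.univ
  exact ⟨q, hq, fun j => h j (Finset.mem_univ _)⟩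

/-- `layer α S i j`: the hyperplane `j` contains the flat of `{k ∈ S | i ≤ k}` but not the flat
of `{k ∈ S | i < k}`. -/
def layer {l n : ℕ} (α : Fin n → ((Fin l → ℂ) →ᵃ[ℂ] ℂ)) (S : Finset (Fin n))
    (i j : Fin n) : Prop :=
  (∀ v ∈ flat α (S.filter (fun k => i ≤ k)), α j v = 0) ∧
    ¬ ∀ v ∈ flat α (S.filter (fun k => i < k)), α j v = 0

theorem layer_unique {l n : ℕ} (α : Fin n → ((Fin l → ℂ) →ᵃ[ℂ] ℂ)) (S : Finset (Fin n))
    (i i' j : Fin n) (h : layer α S i j) (h' : layer α S i' j) : i = i' := by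
  have aux : ∀ a b : Fin n, layer α S a j → layer α S b j → ¬ a < b := by
    intro a b ha hb hab
    apply ha.2
    intro v hv
    apply hb.1
    apply flat_anti α _ hv
    intro k hk
    rw [Finset.mem_filter] at hk ⊢
    exact ⟨hk.1, lt_of_lt_of_le hab hk.2⟩
  rcases lt_trichotomy i i' with h1 | h1 | h1
  · exact absurd h1 (aux i i' h h')
  · exact h1
  · exact absurd h1 (aux i' i h' h)

theorem exists_layer {l n : ℕ} (α : Fin n → ((Fin l → ℂ) →ᵃ[ℂ] ℂ))
    (hne : ∀ j, ∃ v, α j v ≠ 0) (S : Finset (Fin n)) (j : Fin n)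
    (h : ∀ v ∈ flat α S, α j v = 0) : ∃ i ∈ S, layer α S i j := by
  classical
  -- the set of i in S whose upper flat is inside the hyperplane j
  let U : Finset (Fin n) := S.filter (fun i => ∀ v ∈ flat α (S.filter (fun k => i ≤ k)), α j v = 0)
  have hSne : S.Nonempty := by
    by_contra hS
    rw [Finset.not_nonempty_iff_eq_empty] at hS
    obtain ⟨v, hv⟩ := hne j
    apply hv
    apply h
    intro k hk
    rw [hS] at hk
    simp at hk
  have hU : U.Nonempty := by
    refine ⟨S.min' hSne, ?_⟩
    rw [Finset.mem_filter]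
    refine ⟨S.min'_mem hSne, ?_⟩
    intro v hv
    apply h
    intro k hk
    apply hv
    rw [Finset.mem_filter]
    exact ⟨hk, S.min'_le k hk⟩
  refine ⟨U.max' hU, (Finset.mem_filter.mp (U.max'_mem hU)).1, (Finset.mem_filter.mp (U.max'_mem hU)).2, ?_⟩
  intro hcon
  -- the next element above the maximum
  by_cases hN : (S.filter (fun k => U.max' hU < k)).Nonempty
  · have hm := (S.filter (fun k => U.max' hU < k)).min'_mem hN
    set m := (S.filter (fun k => U.max' hU < k)).min' hN with hmdef
    rw [Finset.mem_filter] at hm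
    have : m ∈ U := by
      rw [Finset.mem_filter]
      refine ⟨hm.1, ?_⟩
      intro v hv
      apply hcon
      intro k hk
      apply hv
      rw [Finset.mem_filter]
      exact ⟨(Finset.mem_filter.mp hk).1, Finset.min'_le _ k hk⟩
    have := U.le_max' m this
    exact absurd hm.2 (not_lt.mpr this)
  · rw [Finset.not_nonempty_iff_eq_empty] at hN
    obtain ⟨v, hv⟩ := hne j
    apply hv
    apply hcon
    intro k hk
    rw [hN] at hk
    simp at hk


/-! ### the torus map -/

/-- Data of a torus attached to `S`. -/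
theorem D2_torus {l n : ℕ} (α : Fin n → ((Fin l → ℂ) →ᵃ[ℂ] ℂ))
    (hne : ∀ j, ∃ v, α j v ≠ 0) (S : Finset (Fin n)) (hS : (flat α S).Nonempty) :
    ∃ Φ : (Fin n → ℂ) → (Fin l → ℂ), Continuous Φ ∧ ∀ j,
      ∃ (c : ℂ) (g : (Fin n → ℂ) → ℂ), c ≠ 0 ∧ Continuous g ∧
        (∀ z, (∀ i, ‖z i‖ = 1) → ‖g z‖ < 1) ∧
        (((∀ i ∈ S, ¬ layer α S i j) ∧
            ∀ z, (∀ i, ‖z i‖ = 1) → α j (Φ z) = c * (1 + g z)) ∨
          (∃ i ∈ S, layer α S i j ∧
            ∀ z, (∀ i, ‖z i‖ = 1) → α j (Φ z) = c * z i * (1 + g z))) := by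
  classical
  obtain ⟨p, hp, hpgen⟩ := D1_generic α S hS
  have hup : ∀ i : Fin n, (flat α (S.filter (fun k => i < k))).Nonempty := fun i =>
    hS.mono (flat_anti α (Finset.filter_subset _ _))
  choose Q hQ hQgen using fun i => D1_generic α (S.filter (fun k => i < k)) (hup i)
  -- the constants
  let cc : Fin n → Fin n → ℂ := fun j i => α j (Q i) - α j p
  let K : ℝ := ∑ j, ∑ i ∈ S, (‖cc j i‖ / ‖α j p‖ + ∑ i0, ‖cc j i‖ / ‖α j (Q i0)‖)
  have hK0 : 0 ≤ K := by positivity
  have hK1 : ∀ j, ∑ i ∈ S, ‖cc j i‖ / ‖α j p‖ ≤ K := by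
    intro j
    calc ∑ i ∈ S, ‖cc j i‖ / ‖α j p‖
        ≤ ∑ i ∈ S, (‖cc j i‖ / ‖α j p‖ + ∑ i0, ‖cc j i‖ / ‖α j (Q i0)‖) := by
          apply Finset.sum_le_sum
          intro i _
          have : 0 ≤ ∑ i0, ‖cc j i‖ / ‖α j (Q i0)‖ := by positivity
          linarith
      _ ≤ K := Finset.single_le_sum (f := fun j => ∑ i ∈ S, (‖cc j i‖ / ‖α j p‖ + ∑ i0, ‖cc j i‖ / ‖α j (Q i0)‖)) (fun j _ => by positivity) (Finset.mem_univ j)
  have hK2 : ∀ j i0, ∑ i ∈ S, ‖cc j i‖ / ‖α j (Q i0)‖ ≤ K := by
    intro j i0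
    calc ∑ i ∈ S, ‖cc j i‖ / ‖α j (Q i0)‖
        ≤ ∑ i ∈ S, (‖cc j i‖ / ‖α j p‖ + ∑ i0, ‖cc j i‖ / ‖α j (Q i0)‖) := by
          apply Finset.sum_le_sum
          intro i _
          have h1 : ‖cc j i‖ / ‖α j (Q i0)‖ ≤ ∑ i0, ‖cc j i‖ / ‖α j (Q i0)‖ :=
            Finset.single_le_sum (f := fun i0 => ‖cc j i‖ / ‖α j (Q i0)‖)
              (fun j _ => by positivity) (Finset.mem_univ i0)
          have h2 : 0 ≤ ‖cc j i‖ / ‖α j p‖ := by positivity
          linarith
      _ ≤ K := Finset.single_le_sum (f := fun j => ∑ i ∈ S, (‖cc j i‖ / ‖α j p‖ + ∑ i0, ‖cc j i‖ / ‖α j (Q i0)‖)) (fun j _ => by positivity) (Finset.mem_univ j)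
  let δ : ℝ := 1 / (K + 1)
  have hδ0 : 0 < δ := by positivity
  have hδ1 : δ ≤ 1 := by
    rw [div_le_one (by positivity)]
    linarith
  have hδK : δ * K < 1 := by
    change 1 / (K + 1) * K < 1
    rw [one_div, inv_mul_lt_iff₀ (by positivity)]
    linarith
  -- the map
  let Φ : (Fin n → ℂ) → (Fin l → ℂ) := fun z =>
    p + ∑ i ∈ S, (((δ : ℂ) ^ ((i : ℕ) + 1)) * z i) • (Q i - p)
  have hΦ : ∀ j z, α j (Φ z) = α j p + ∑ i ∈ S, (((δ : ℂ) ^ ((i : ℕ) + 1)) * z i) * cc j i := by
    intro j z
    have h1 : Φ z = (∑ i ∈ S, (((δ : ℂ) ^ ((i : ℕ) + 1)) * z i) • (Q i - p)) +ᵥ p := by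
      simp only [Φ, vadd_eq_add]
      rw [add_comm]
    rw [h1, AffineMap.map_vadd, vadd_eq_add, map_sum, add_comm]
    congr 1
    apply Finset.sum_congr rfl
    intro i _
    rw [map_smul, smul_eq_mul]
    congr 1
    have : Q i - p = Q i -ᵥ p := rfl
    rw [this, AffineMap.linearMap_vsub, vsub_eq_sub]
  refine ⟨Φ, by fun_prop, ?_⟩
  intro j
  by_cases hj : ∀ v ∈ flat α S, α j v = 0
  · -- the hyperplane contains the flat
    obtain ⟨i0, hi0S, hi0⟩ := exists_layer α hne S j hj
    have hp0 : α j p = 0 := hj p hp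
    have hlow : ∀ i ∈ S, i < i0 → cc j i = 0 := by
      intro i hi hlt
      have : α j (Q i) = 0 := by
        apply hi0.1
        apply flat_anti α _ (hQ i)
        intro k hk
        rw [Finset.mem_filter] at hk ⊢
        exact ⟨hk.1, lt_of_lt_of_le hlt hk.2⟩
      simp [cc, this, hp0]
    have hcc0 : cc j i0 ≠ 0 := by
      have := hQgen i0 j hi0.2
      simpa [cc, hp0] using this
    have hccn : ‖α j (Q i0)‖ = ‖cc j i0‖ := by simp [cc, hp0]
    let g : (Fin n → ℂ) → ℂ := fun z =>
      ∑ i ∈ S.filter (fun i => i0 < i), ((δ : ℂ) ^ ((i : ℕ) - (i0 : ℕ))) * z i *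
        (starRingEnd ℂ (z i0)) * (cc j i / cc j i0)
    refine ⟨(δ : ℂ) ^ ((i0 : ℕ) + 1) * cc j i0, g, ?_, ?_, ?_, Or.inr ⟨i0, hi0S, hi0, ?_⟩⟩
    · apply mul_ne_zero _ hcc0
      apply pow_ne_zero
      exact_mod_cast hδ0.ne'
    · fun_prop
    · intro z hz
      calc ‖g z‖ ≤ ∑ i ∈ S.filter (fun i => i0 < i), ‖((δ : ℂ) ^ ((i : ℕ) - (i0 : ℕ))) * z i *
            (starRingEnd ℂ (z i0)) * (cc j i / cc j i0)‖ := norm_sum_le _ _
        _ ≤ ∑ i ∈ S.filter (fun i => i0 < i), δ * (‖cc j i‖ / ‖α j (Q i0)‖) := by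
            apply Finset.sum_le_sum
            intro i hi
            rw [norm_mul, norm_mul, norm_mul, norm_pow, norm_div, RCLike.norm_conj, hz, hz,
              hccn, mul_one, mul_one, Complex.norm_real, Real.norm_of_nonneg hδ0.le]
            apply mul_le_mul_of_nonneg_right _ (by positivity)
            apply pow_le_of_le_one hδ0.le hδ1
            have := (Finset.mem_filter.mp hi).2
            have h2 : (i0 : ℕ) < (i : ℕ) := this
            omega
        _ ≤ ∑ i ∈ S, δ * (‖cc j i‖ / ‖α j (Q i0)‖) := by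
            apply Finset.sum_le_sum_of_subset_of_nonneg (Finset.filter_subset _ _)
            intro i _ _
            positivity
        _ = δ * ∑ i ∈ S, (‖cc j i‖ / ‖α j (Q i0)‖) := by rw [Finset.mul_sum]
        _ ≤ δ * K := mul_le_mul_of_nonneg_left (hK2 j i0) hδ0.le
        _ < 1 := hδK
    · intro z hz
      rw [hΦ, hp0, zero_add]
      have hsplit : ∑ i ∈ S, (((δ : ℂ) ^ ((i : ℕ) + 1)) * z i) * cc j i =
          (((δ : ℂ) ^ ((i0 : ℕ) + 1)) * z i0) * cc j i0 +
            ∑ i ∈ S.filter (fun i => i0 < i), (((δ : ℂ) ^ ((i : ℕ) + 1)) * z i) * cc j i := by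
        rw [← Finset.add_sum_erase S _ hi0S]
        congr 1
        symm
        apply Finset.sum_subset
        · intro i hi
          rw [Finset.mem_filter] at hi
          rw [Finset.mem_erase]
          exact ⟨ne_of_gt hi.2, hi.1⟩
        · intro i hi hni
          rw [Finset.mem_erase] at hi
          rw [Finset.mem_filter, not_and] at hni
          have : i < i0 := lt_of_le_of_ne (not_lt.mp (hni hi.2)) hi.1
          rw [hlow i hi.2 this, mul_zero]
      rw [hsplit, mul_add, mul_one, Finset.mul_sum]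
      congr 1
      · ring
      · apply Finset.sum_congr rfl
        intro i hi
        have h2 : (i0 : ℕ) < (i : ℕ) := (Finset.mem_filter.mp hi).2
        have h3 : (i : ℕ) + 1 = ((i0 : ℕ) + 1) + ((i : ℕ) - (i0 : ℕ)) := by omega
        have h4 : z i0 * (starRingEnd ℂ (z i0)) = 1 := by
          rw [Complex.mul_conj, Complex.normSq_eq_norm_sq, hz]
          norm_num
        rw [h3, pow_add]
        field_simp
        linear_combination (-(1 : ℂ)) * (δ : ℂ) ^ ((i0 : ℕ) + 1) * (δ : ℂ) ^ ((i : ℕ) - (i0 : ℕ)) * z i * cc j i * h4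
  · -- the hyperplane does not contain the flat
    have hp0 : α j p ≠ 0 := hpgen j hj
    let g : (Fin n → ℂ) → ℂ := fun z => ∑ i ∈ S, ((δ : ℂ) ^ ((i : ℕ) + 1)) * z i * (cc j i / α j p)
    refine ⟨α j p, g, hp0, by fun_prop, ?_, Or.inl ⟨?_, ?_⟩⟩
    · intro z hz
      calc ‖g z‖ ≤ ∑ i ∈ S, ‖((δ : ℂ) ^ ((i : ℕ) + 1)) * z i * (cc j i / α j p)‖ := norm_sum_le _ _
        _ ≤ ∑ i ∈ S, δ * (‖cc j i‖ / ‖α j p‖) := by
            apply Finset.sum_le_sum
            intro i hi
            rw [norm_mul, norm_mul, norm_pow, norm_div, hz, mul_one, Complex.norm_real,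
              Real.norm_of_nonneg hδ0.le]
            apply mul_le_mul_of_nonneg_right _ (by positivity)
            apply pow_le_of_le_one hδ0.le hδ1
            omega
        _ = δ * ∑ i ∈ S, (‖cc j i‖ / ‖α j p‖) := by rw [Finset.mul_sum]
        _ ≤ δ * K := mul_le_mul_of_nonneg_left (hK1 j) hδ0.le
        _ < 1 := hδK
    · intro i hi hl
      apply hj
      intro v hv
      exact hl.1 v (flat_anti α (Finset.filter_subset _ _) hv)
    · intro z hz
      rw [hΦ, mul_add, mul_one, Finset.mul_sum]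
      congr 1
      apply Finset.sum_congr rfl
      intro i _
      field_simp




theorem quot_commute {M : Type*} [TopologicalSpace M] {y : M} (a b : Path y y)
    (H : C(I × I, M)) (ha0 : ∀ s, H (s, 0) = a s) (ha1 : ∀ s, H (s, 1) = a s)
    (hb0 : ∀ t, H (0, t) = b t) (hb1 : ∀ t, H (1, t) = b t) :
    Path.Homotopic (a.trans b) (b.trans a) := by
  -- two paths in the square
  let h1 : Path ((0 : I), (0 : I)) (1, 0) :=
    { toFun := fun s => (s, 0), continuous_toFun := by fun_prop, source' := rfl, target' := rfl }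
  let v1 : Path ((1 : I), (0 : I)) (1, 1) :=
    { toFun := fun s => (1, s), continuous_toFun := by fun_prop, source' := rfl, target' := rfl }
  let v0 : Path ((0 : I), (0 : I)) (0, 1) :=
    { toFun := fun s => (0, s), continuous_toFun := by fun_prop, source' := rfl, target' := rfl }
  let h2 : Path ((0 : I), (1 : I)) (1, 1) :=
    { toFun := fun s => (s, 1), continuous_toFun := by fun_prop, source' := rfl, target' := rfl }
  have key : Path.Homotopic (h1.trans v1) (v0.trans h2) := by
    have : ContractibleSpace I := (convex_Icc (0 : ℝ) 1).contractibleSpace ⟨0, by simp⟩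
    exact SimplyConnectedSpace.paths_homotopic _ _
  obtain ⟨F⟩ := key
  have e1 : (a.trans b).toContinuousMap = H.comp (h1.trans v1).toContinuousMap := by
    ext t
    simp only [Path.coe_toContinuousMap, ContinuousMap.comp_apply, Path.trans_apply]
    split_ifs with h
    · exact (ha0 _).symm
    · exact (hb1 _).symm
  have e2 : (b.trans a).toContinuousMap = H.comp (v0.trans h2).toContinuousMap := by
    ext t
    simp only [Path.coe_toContinuousMap, ContinuousMap.comp_apply, Path.trans_apply]
    split_ifs with h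
    · exact (hb0 _).symm
    · exact (ha1 _).symm
  have F2 := F.compContinuousMap H
  exact ⟨F2.cast e1.symm e2.symm⟩

open CategoryTheory in
theorem conj_mul {M : Type*} [TopologicalSpace M] {x y : M} (p : Path x y) (c d : Path y y) :
    (FundamentalGroup.fromPath (Path.Homotopic.Quotient.mk ((p.trans c).trans p.symm))) *
        (FundamentalGroup.fromPath (Path.Homotopic.Quotient.mk ((p.trans d).trans p.symm))) =
      FundamentalGroup.fromPath
        (Path.Homotopic.Quotient.mk ((p.trans (d.trans c)).trans p.symm)) := by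
  let P : FundamentalGroupoid.mk x ⟶ FundamentalGroupoid.mk y := Path.Homotopic.Quotient.mk p
  let C : FundamentalGroupoid.mk y ⟶ FundamentalGroupoid.mk y := Path.Homotopic.Quotient.mk c
  let D : FundamentalGroupoid.mk y ⟶ FundamentalGroupoid.mk y := Path.Homotopic.Quotient.mk d
  have h : ((P ≫ D) ≫ Groupoid.inv P) ≫ ((P ≫ C) ≫ Groupoid.inv P)
      = (P ≫ (D ≫ C)) ≫ Groupoid.inv P := by
    simp only [Category.assoc]
    rw [← Category.assoc (Groupoid.inv P) P, Groupoid.inv_comp, Category.id_comp]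
  exact h

theorem B_commute {M : Type*} [TopologicalSpace M] {x y : M} (p : Path x y) (a b : Path y y)
    (H : C(I × I, M)) (ha0 : ∀ s, H (s, 0) = a s) (ha1 : ∀ s, H (s, 1) = a s)
    (hb0 : ∀ t, H (0, t) = b t) (hb1 : ∀ t, H (1, t) = b t) :
    Commute
      (FundamentalGroup.fromPath (Path.Homotopic.Quotient.mk ((p.trans a).trans p.symm)))
      (FundamentalGroup.fromPath (Path.Homotopic.Quotient.mk ((p.trans b).trans p.symm))) := by
  have h0 := quot_commute a b H ha0 ha1 hb0 hb1
  have h1 : Path.Homotopic.Quotient.mk (a.trans b) = Path.Homotopic.Quotient.mk (b.trans a) :=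
    Path.Homotopic.Quotient.eq.mpr h0
  rw [commute_iff_eq, conj_mul, conj_mul]
  simp only [Path.Homotopic.Quotient.mk_trans] at h1 ⊢
  rw [h1]



/-! ### path connectedness of the complement -/

theorem compl_joined {l n : ℕ} (α : Fin n → ((Fin l → ℂ) →ᵃ[ℂ] ℂ))
    (u v : {v : Fin l → ℂ // ∀ j, α j v ≠ 0}) : Joined u v := by
  classical
  let bad : Set ℂ := ((Finset.univ.image
    (fun j : Fin n => - α j u.1 / (α j v.1 - α j u.1)) : Finset ℂ) : Set ℂ)
  have hbad : bad.Countable := (Finset.finite_toSet _).countable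
  have hrank : 1 < Module.rank ℝ ℂ := by
    rw [Complex.rank_real_complex]
    norm_num
  by_cases huv : u = v
  · subst huv
    exact Joined.refl _
  let bad' : Set ℂ := {t | ∃ j, α j (AffineMap.lineMap u.1 v.1 t) = 0}
  have hbad' : bad'.Countable := by
    apply hbad.mono
    rintro t ⟨j, hj⟩
    simp only [bad, Finset.coe_image, Finset.coe_univ, Set.image_univ, Set.mem_range]
    exact ⟨j, (line_zero (α j) u.1 v.1 t (Or.inl (u.2 j)) hj).symm⟩
  have hpc := hbad'.isPathConnected_compl_of_one_lt_rank hrank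
  have m0 : (0 : ℂ) ∈ bad'ᶜ := by
    rintro ⟨j, hj⟩
    rw [AffineMap.lineMap_apply_zero] at hj
    exact u.2 j hj
  have m1 : (1 : ℂ) ∈ bad'ᶜ := by
    rintro ⟨j, hj⟩
    rw [AffineMap.lineMap_apply_one] at hj
    exact v.2 j hj
  obtain ⟨γ, hγ⟩ := hpc.joinedIn 0 m0 1 m1
  refine ⟨⟨⟨fun t => ⟨AffineMap.lineMap u.1 v.1 (γ t), fun j hj => hγ t ⟨j, hj⟩⟩, ?_⟩, ?_, ?_⟩⟩
  · apply Continuous.subtype_mk
    have : Continuous (fun t : ℂ => (AffineMap.lineMap u.1 v.1 t : Fin l → ℂ)) := by
      simp only [AffineMap.lineMap_apply]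
      fun_prop
    exact this.comp γ.continuous
  · apply Subtype.ext
    simp
  · apply Subtype.ext
    simp

/-! ### the commuting loops of the torus -/

/-- the unit circle point with angle `2 π t` -/
noncomputable def ee (t : ℝ) : ℂ := Complex.exp (t * (2 * Real.pi * Complex.I))

theorem norm_ee (t : ℝ) : ‖ee t‖ = 1 := by
  unfold ee
  have : (t : ℂ) * (2 * Real.pi * Complex.I) = ((t * (2 * Real.pi) : ℝ) : ℂ) * Complex.I := by
    push_cast; ring
  rw [this]
  exact Complex.norm_exp_ofReal_mul_I _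

theorem ee_zero : ee 0 = 1 := by simp [ee]

theorem ee_one : ee 1 = 1 := by
  unfold ee
  rw [Complex.ofReal_one, one_mul]
  exact Complex.exp_two_pi_mul_I

theorem continuous_ee : Continuous ee := by
  unfold ee
  fun_prop

/-- the property of the winding characters produced by part A -/
def IsWind {M : Type*} [TopologicalSpace M] (f : M → ℂ) (x : M)
    (w : FundamentalGroup M x →* Multiplicative ℤ) : Prop :=
  ∀ (y : M) (p : Path x y) (γ : Path y y) (L : I → ℂ) (k : ℤ), Continuous L →
        (∀ t, Complex.exp (L t) = f (γ t)) →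
        L 1 - L 0 = k * (2 * Real.pi * Complex.I) →
        w (FundamentalGroup.fromPath (Path.Homotopic.Quotient.mk ((p.trans γ).trans p.symm)))
          = Multiplicative.ofAdd k

open Classical in
theorem torus_elements {l n : ℕ} (α : Fin n → ((Fin l → ℂ) →ᵃ[ℂ] ℂ))
    (x : {v : Fin l → ℂ // ∀ j, α j v ≠ 0}) (S : Finset (Fin n)) (hS : (flat α S).Nonempty)
    (w : Fin n → (FundamentalGroup {v : Fin l → ℂ // ∀ j, α j v ≠ 0} x →* Multiplicative ℤ))
    (hw : ∀ j, IsWind (fun v : {v : Fin l → ℂ // ∀ j, α j v ≠ 0} => α j v.1) x (w j)) :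
    ∃ g : Fin n → FundamentalGroup {v : Fin l → ℂ // ∀ j, α j v ≠ 0} x,
      (∀ i i', Commute (g i) (g i')) ∧
      ∀ i ∈ S, ∀ j, w j (g i) = Multiplicative.ofAdd (if layer α S i j then (1 : ℤ) else 0) := by
  have hne : ∀ j, ∃ v, α j v ≠ 0 := fun j => ⟨x.1, x.2 j⟩
  obtain ⟨Φ, hΦc, hΦ⟩ := D2_torus α hne S hS
  have hmem : ∀ z : Fin n → ℂ, (∀ i, ‖z i‖ = 1) → ∀ j, α j (Φ z) ≠ 0 := by
    intro z hz j
    obtain ⟨c, g, hc, -, hg, h⟩ := hΦ j
    have h1 : 1 + g z ≠ 0 := by
      intro h0
      have h2 := hg z hz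
      have h3 : g z = -1 := by linear_combination h0
      rw [h3] at h2
      simp at h2
    rcases h with ⟨-, h⟩ | ⟨i, -, -, h⟩
    · rw [h z hz]
      exact mul_ne_zero hc h1
    · rw [h z hz]
      refine mul_ne_zero (mul_ne_zero hc ?_) h1
      intro h0
      have := hz i
      rw [h0] at this
      simp at this
  -- coordinates
  let Z : Fin n → Fin n → I → I → (Fin n → ℂ) := fun i i' s t k =>
    if k = i then ee s else if k = i' then ee t else 1
  have hZn : ∀ i i' s t k, ‖Z i i' s t k‖ = 1 := by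
    intro i i' s t k
    simp only [Z]
    split_ifs
    · exact norm_ee _
    · exact norm_ee _
    · simp
  have hZc : ∀ i i', Continuous (fun st : I × I => Z i i' st.1 st.2) := by
    intro i i'
    apply continuous_pi
    intro k
    simp only [Z]
    split_ifs
    · exact continuous_ee.comp (continuous_subtype_val.comp continuous_fst)
    · exact continuous_ee.comp (continuous_subtype_val.comp continuous_snd)
    · exact continuous_const
  let z1 : Fin n → I → (Fin n → ℂ) := fun i t k => if k = i then ee t else 1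
  have hz1n : ∀ i t k, ‖z1 i t k‖ = 1 := by
    intro i t k
    simp only [z1]
    split_ifs
    · exact norm_ee _
    · simp
  have hz1c : ∀ i, Continuous (fun t : I => z1 i t) := by
    intro i
    apply continuous_pi
    intro k
    simp only [z1]
    split_ifs
    · exact continuous_ee.comp continuous_subtype_val
    · exact continuous_const
  have hz10 : ∀ i, z1 i 0 = fun _ => 1 := by
    intro i
    funext k
    simp only [z1]
    split_ifs
    · exact ee_zero
    · rfl
  have hz11 : ∀ i, z1 i 1 = fun _ => 1 := by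
    intro i
    funext k
    simp only [z1]
    split_ifs
    · exact ee_one
    · rfl
  let y : {v : Fin l → ℂ // ∀ j, α j v ≠ 0} := ⟨Φ (fun _ => 1), hmem _ (fun _ => by simp)⟩
  let a : Fin n → Path y y := fun i =>
    { toFun := fun t => ⟨Φ (z1 i t), hmem _ (hz1n i t)⟩
      continuous_toFun := (hΦc.comp (hz1c i)).subtype_mk _
      source' := Subtype.ext (by simp only [y]; rw [hz10])
      target' := Subtype.ext (by simp only [y]; rw [hz11]) }
  obtain ⟨p⟩ := compl_joined α x y
  refine ⟨fun i => FundamentalGroup.fromPath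
    (Path.Homotopic.Quotient.mk ((p.trans (a i)).trans p.symm)), ?_, ?_⟩
  · intro i i'
    by_cases hii : i = i'
    · subst hii
      exact Commute.refl _
    · let H : C(I × I, {v : Fin l → ℂ // ∀ j, α j v ≠ 0}) :=
        ⟨fun st => ⟨Φ (Z i i' st.1 st.2), hmem _ (hZn i i' st.1 st.2)⟩,
          (hΦc.comp (hZc i i')).subtype_mk _⟩
      refine B_commute p (a i) (a i') H ?_ ?_ ?_ ?_
      · intro s
        apply Subtype.ext
        change Φ (Z i i' s 0) = Φ (z1 i s)
        congr 1
        funext k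
        simp only [Z, z1]
        split_ifs
        · rfl
        · exact ee_zero
        · rfl
      · intro s
        apply Subtype.ext
        change Φ (Z i i' s 1) = Φ (z1 i s)
        congr 1
        funext k
        simp only [Z, z1]
        split_ifs
        · rfl
        · exact ee_one
        · rfl
      · intro t
        apply Subtype.ext
        change Φ (Z i i' 0 t) = Φ (z1 i' t)
        congr 1
        funext k
        simp only [Z, z1]
        split_ifs with h1 h2 h2
        · exact absurd (h1.symm.trans h2) hii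
        · exact ee_zero
        · rfl
        · rfl
      · intro t
        apply Subtype.ext
        change Φ (Z i i' 1 t) = Φ (z1 i' t)
        congr 1
        funext k
        simp only [Z, z1]
        split_ifs with h1 h2 h2
        · exact absurd (h1.symm.trans h2) hii
        · exact ee_one
        · rfl
        · rfl
  · intro i hi j
    obtain ⟨c, g, hc, hgc, hg, h⟩ := hΦ j
    have hlog : Continuous (fun t : I => Complex.log (1 + g (z1 i t))) := by
      apply Continuous.clog
      · exact continuous_const.add (hgc.comp (hz1c i))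
      · intro t
        exact Complex.mem_slitPlane_of_norm_lt_one (hg _ (hz1n i t))
    have h1 : ∀ t, 1 + g (z1 i t) ≠ 0 := fun t =>
      Complex.slitPlane_ne_zero (Complex.mem_slitPlane_of_norm_lt_one (hg _ (hz1n i t)))
    rcases h with ⟨hno, h⟩ | ⟨i0, hi0, hlay, h⟩
    · rw [if_neg (hno i hi)]
      refine hw j y p (a i) (fun t => Complex.log c + Complex.log (1 + g (z1 i t))) 0
        (continuous_const.add hlog) ?_ ?_
      · intro t
        rw [Complex.exp_add, Complex.exp_log hc, Complex.exp_log (h1 t)]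
        exact (h _ (hz1n i t)).symm
      · rw [hz10, hz11]
        simp
    · by_cases hii : i = i0
      · subst hii
        rw [if_pos hlay]
        refine hw j y p (a i) (fun t => Complex.log c + (t : ℝ) * (2 * Real.pi * Complex.I)
          + Complex.log (1 + g (z1 i t))) 1 ?_ ?_ ?_
        · refine Continuous.add ?_ hlog
          fun_prop
        · intro t
          rw [Complex.exp_add, Complex.exp_add, Complex.exp_log hc, Complex.exp_log (h1 t)]
          have e1 : z1 i t i = Complex.exp ((t : ℝ) * (2 * Real.pi * Complex.I)) := by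
            simp [z1, ee]
          rw [← e1]
          exact (h _ (hz1n i t)).symm
        · rw [hz10, hz11]
          simp
      · have hnl : ¬ layer α S i j := fun hl => hii (layer_unique α S i i0 j hl hlay)
        rw [if_neg hnl]
        refine hw j y p (a i) (fun t => Complex.log c + Complex.log (1 + g (z1 i t))) 0
          (continuous_const.add hlog) ?_ ?_
        · intro t
          rw [Complex.exp_add, Complex.exp_log hc, Complex.exp_log (h1 t)]
          have e1 : z1 i t i0 = 1 := by
            have : i0 ≠ i := fun h => hii h.symm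
            simp [z1, this]
          have h2 := h _ (hz1n i t)
          rw [e1, mul_one] at h2
          exact h2.symm
        · rw [hz10, hz11]
          simp



/-! ### no broken circuit sets -/

open Classical in
/-- the incidence used below -/
def QQ {l n : ℕ} (α : Fin n → ((Fin l → ℂ) →ᵃ[ℂ] ℂ)) (S' S : Finset (Fin n)) : Prop :=
  ∀ i ∈ S', Odd (S.filter (fun j => layer α S' i j)).card

/-- the weight -/
def wt {n : ℕ} (S : Finset (Fin n)) : ℕ := ∑ j ∈ S, ((j : ℕ) + 1)

theorem QQ_self {l n : ℕ} (α : Fin n → ((Fin l → ℂ) →ᵃ[ℂ] ℂ))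
    (hne : ∀ j, ∃ v, α j v ≠ 0) (S : Finset (Fin n)) (hS : IsNBC α S) : QQ α S S := by
  classical
  intro i hi
  have : S.filter (fun j => layer α S i j) = {i} := by
    ext k
    rw [Finset.mem_filter, Finset.mem_singleton]
    constructor
    · rintro ⟨hk, hl⟩
      have h1 : i ≤ k := hS.2 i hi k hl.1
      by_contra hne'
      have h2 : i < k := lt_of_le_of_ne h1 (fun h => hne' h.symm)
      apply hl.2
      intro v hv
      exact hv k (Finset.mem_filter.mpr ⟨hk, h2⟩)
    · rintro rfl
      refine ⟨hi, ?_, ?_⟩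
      · intro v hv
        exact hv k (Finset.mem_filter.mpr ⟨hi, le_refl _⟩)
      · intro hcon
        by_cases hN : (S.filter (fun m => k < m)).Nonempty
        · have hm := (S.filter (fun m => k < m)).min'_mem hN
          set m := (S.filter (fun m => k < m)).min' hN with hmdef
          rw [Finset.mem_filter] at hm
          have := hS.2 m hm.1 k (by
            intro v hv
            apply hcon
            intro t ht
            apply hv
            rw [Finset.mem_filter]
            exact ⟨(Finset.mem_filter.mp ht).1, Finset.min'_le _ t ht⟩)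
          exact absurd hm.2 (not_lt.mpr this)
        · rw [Finset.not_nonempty_iff_eq_empty] at hN
          obtain ⟨v, hv⟩ := hne k
          apply hv
          apply hcon
          intro t ht
          rw [hN] at ht
          simp at ht
  rw [this]
  simp

theorem QQ_wt {l n : ℕ} (α : Fin n → ((Fin l → ℂ) →ᵃ[ℂ] ℂ))
    (S' S : Finset (Fin n)) (hS' : IsNBC α S') (h : QQ α S' S) (hw : wt S ≤ wt S') : S = S' := by
  classical
  have hex : ∀ i ∈ S', ∃ s ∈ S, layer α S' i s := by
    intro i hi
    have h1 := (h i hi).pos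
    rw [Finset.card_pos] at h1
    obtain ⟨s, hs⟩ := h1
    rw [Finset.mem_filter] at hs
    exact ⟨s, hs.1, hs.2⟩
  choose! s hsS hsl using hex
  have hle : ∀ i ∈ S', i ≤ s i := fun i hi => hS'.2 i hi (s i) (hsl i hi).1
  have hinj : Set.InjOn s S' := by
    intro i hi i' hi' hii
    exact layer_unique α S' i i' (s i) (hsl i hi) (hii ▸ hsl i' hi')
  have himg : S'.image s ⊆ S := by
    intro k hk
    obtain ⟨i, hi, rfl⟩ := Finset.mem_image.mp hk
    exact hsS i hi
  have h1 : ∑ i ∈ S', ((i : ℕ) + 1) ≤ ∑ i ∈ S', ((s i : ℕ) + 1) :=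
    Finset.sum_le_sum (fun i hi => by
      have : (i : ℕ) ≤ (s i : ℕ) := hle i hi
      omega)
  have h2 : ∑ j ∈ S'.image s, ((j : ℕ) + 1) = ∑ i ∈ S', ((s i : ℕ) + 1) :=
    Finset.sum_image (fun i hi i' hi' h => hinj hi hi' h)
  have h3 : ∑ j ∈ S'.image s, ((j : ℕ) + 1) + ∑ j ∈ S \ S'.image s, ((j : ℕ) + 1)
      = ∑ j ∈ S, ((j : ℕ) + 1) := by
    rw [add_comm]
    exact Finset.sum_sdiff himg
  unfold wt at hw
  have h4 : ∑ j ∈ S \ S'.image s, ((j : ℕ) + 1) = 0 := by omega
  have h5 : ∑ i ∈ S', ((i : ℕ) + 1) = ∑ i ∈ S', ((s i : ℕ) + 1) := by omega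
  have h6 : S \ S'.image s = ∅ := by
    rw [Finset.eq_empty_iff_forall_notMem]
    intro k hk
    have := Finset.sum_eq_zero_iff.mp h4 k hk
    omega
  have h7 : ∀ i ∈ S', s i = i := by
    have := (Finset.sum_eq_sum_iff_of_le (fun i hi => by
      have : (i : ℕ) ≤ (s i : ℕ) := hle i hi
      omega : ∀ i ∈ S', (i : ℕ) + 1 ≤ (s i : ℕ) + 1)).mp h5
    intro i hi
    have h8 := this i hi
    apply Fin.ext
    omega
  have h8 : S'.image s = S' := by
    ext k
    rw [Finset.mem_image]
    constructor
    · rintro ⟨i, hi, rfl⟩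
      rw [h7 i hi]; exact hi
    · intro hk
      exact ⟨k, hk, h7 k hk⟩
  rw [h8] at h6 himg
  exact Finset.Subset.antisymm (Finset.sdiff_eq_empty_iff_subset.mp h6) himg

/-- the index set of the characters -/
abbrev NN {l n : ℕ} (α : Fin n → ((Fin l → ℂ) →ᵃ[ℂ] ℂ)) : Type :=
  {S : Finset (Fin n) // IsNBC α S ∧ S.Nonempty}

open Classical in
theorem count_separates {l n : ℕ} (α : Fin n → ((Fin l → ℂ) →ᵃ[ℂ] ℂ))
    (hne : ∀ j, ∃ v, α j v ≠ 0) (T T' : Finset (NN α))
    (h : ∀ S' : NN α, (T.filter (fun S => QQ α S'.1 S.1)).card % 2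
      = (T'.filter (fun S => QQ α S'.1 S.1)).card % 2) : T = T' := by
  by_contra hTT
  have hD : ((T \ T') ∪ (T' \ T)).Nonempty := by
    by_contra hE
    rw [Finset.not_nonempty_iff_eq_empty, Finset.union_eq_empty] at hE
    exact hTT (Finset.Subset.antisymm (Finset.sdiff_eq_empty_iff_subset.mp hE.1)
      (Finset.sdiff_eq_empty_iff_subset.mp hE.2))
  obtain ⟨S', hS', hmax⟩ := Finset.exists_max_image _ (fun S : NN α => wt S.1) hD
  have hfil : ∀ S ∈ ((T \ T') ∪ (T' \ T)), QQ α S'.1 S.1 → S = S' := by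
    intro S hS hQ
    exact Subtype.ext (QQ_wt α S'.1 S.1 S'.2.1 hQ (hmax S hS))
  have hself : QQ α S'.1 S'.1 := QQ_self α hne S'.1 S'.2.1
  have split : ∀ A B : Finset (NN α), (A.filter (fun S => QQ α S'.1 S.1)).card
      = ((A ∩ B).filter (fun S => QQ α S'.1 S.1)).card
        + ((A \ B).filter (fun S => QQ α S'.1 S.1)).card := by
    intro A B
    rw [← Finset.card_union_of_disjoint, ← Finset.filter_union]
    · congr 2
      ext S
      simp only [Finset.mem_union, Finset.mem_inter, Finset.mem_sdiff]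
      tauto
    · apply Finset.disjoint_filter_filter
      rw [Finset.disjoint_left]
      intro S hS hS2
      exact (Finset.mem_sdiff.mp hS2).2 (Finset.mem_inter.mp hS).2
  have h0 := h S'
  rw [split T T', split T' T, Finset.inter_comm T' T] at h0
  rcases Finset.mem_union.mp hS' with hin | hin
  · have e1 : (T \ T').filter (fun S => QQ α S'.1 S.1) = {S'} := by
      ext S
      rw [Finset.mem_filter, Finset.mem_singleton]
      constructor
      · rintro ⟨h1, h2⟩
        exact hfil S (Finset.mem_union_left _ h1) h2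
      · rintro rfl
        exact ⟨hin, hself⟩
    have e2 : (T' \ T).filter (fun S => QQ α S'.1 S.1) = ∅ := by
      rw [Finset.eq_empty_iff_forall_notMem]
      intro S hS
      rw [Finset.mem_filter] at hS
      have := hfil S (Finset.mem_union_right _ hS.1) hS.2
      subst this
      exact (Finset.mem_sdiff.mp hS.1).2 (Finset.mem_sdiff.mp hin).1
    rw [e1, e2, Finset.card_singleton, Finset.card_empty] at h0
    omega
  · have e1 : (T' \ T).filter (fun S => QQ α S'.1 S.1) = {S'} := by
      ext S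
      rw [Finset.mem_filter, Finset.mem_singleton]
      constructor
      · rintro ⟨h1, h2⟩
        exact hfil S (Finset.mem_union_right _ h1) h2
      · rintro rfl
        exact ⟨hin, hself⟩
    have e2 : (T \ T').filter (fun S => QQ α S'.1 S.1) = ∅ := by
      rw [Finset.eq_empty_iff_forall_notMem]
      intro S hS
      rw [Finset.mem_filter] at hS
      have := hfil S (Finset.mem_union_left _ hS.1) hS.2
      subst this
      exact (Finset.mem_sdiff.mp hS.1).2 (Finset.mem_sdiff.mp hin).1
    rw [e1, e2, Finset.card_singleton, Finset.card_empty] at h0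
    omega



/-! ### representations -/

theorem mem_jointNeg {q : ℕ} {ι : Type*} (S : Finset ι) (A : ι → Matrix (Fin q) (Fin q) ℝ)
    (v : Fin q → ℝ) : v ∈ jointNeg S A ↔ ∀ i ∈ S, (A i).mulVec v = - v := by
  simp only [jointNeg, Submodule.mem_iInf, LinearMap.mem_ker, LinearMap.add_apply,
    Matrix.mulVecLin_apply, LinearMap.id_apply]
  constructor
  · intro h i hi
    exact eq_neg_of_add_eq_zero_left (h i hi)
  · intro h i hi
    rw [h i hi]
    simp

open Classical in
theorem finrank_jointNeg_diagonal {q : ℕ} {ι : Type*} (S : Finset ι) (d : ι → Fin q → ℝ) :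
    Module.finrank ℝ (jointNeg S (fun i => Matrix.diagonal (d i)))
      = (Finset.univ.filter (fun k : Fin q => ∀ i ∈ S, d i k = -1)).card := by
  have hmem : ∀ v : Fin q → ℝ, v ∈ jointNeg S (fun i => Matrix.diagonal (d i)) ↔
      ∀ k, (¬ ∀ i ∈ S, d i k = -1) → v k = 0 := by
    intro v
    rw [mem_jointNeg]
    constructor
    · intro h k hk
      push Not at hk
      obtain ⟨i, hi, hik⟩ := hk
      have h1 := congrFun (h i hi) k
      rw [Matrix.mulVec_diagonal, Pi.neg_apply] at h1
      have h2 : (d i k + 1) * v k = 0 := by linear_combination h1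
      rcases mul_eq_zero.mp h2 with h3 | h3
      · exfalso
        apply hik
        linarith
      · exact h3
    · intro h i hi
      funext k
      rw [Matrix.mulVec_diagonal, Pi.neg_apply]
      by_cases hk : ∀ i ∈ S, d i k = -1
      · rw [hk i hi]; ring
      · rw [h k hk]; ring
  let e : jointNeg S (fun i => Matrix.diagonal (d i)) ≃ₗ[ℝ]
      ({k : Fin q // ∀ i ∈ S, d i k = -1} → ℝ) :=
    { toFun := fun v k => v.1 k.1
      map_add' := fun v w => rfl
      map_smul' := fun c v => rfl
      invFun := fun f => ⟨fun k => if h : ∀ i ∈ S, d i k = -1 then f ⟨k, h⟩ else 0, by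
        rw [hmem]
        intro k hk
        simp only [dif_neg hk]⟩
      left_inv := by
        intro v
        apply Subtype.ext
        funext k
        by_cases hk : ∀ i ∈ S, d i k = -1
        · simp only [dif_pos hk]
        · simp only [dif_neg hk]
          exact ((hmem v.1).mp v.2 k hk).symm
      right_inv := by
        intro f
        funext k
        simp only [dif_pos k.2] }
  rw [e.finrank_eq, Module.finrank_fintype_fun_eq_card, Fintype.card_subtype]

theorem diag_sign_mem {q : ℕ} (u : Fin q → ℤˣ) :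
    Matrix.diagonal (fun k => (((u k : ℤˣ) : ℤ) : ℝ)) ∈ Matrix.orthogonalGroup (Fin q) ℝ := by
  rw [Matrix.mem_orthogonalGroup_iff, Matrix.diagonal_transpose,
    Matrix.diagonal_mul_diagonal, ← Matrix.diagonal_one]
  congr 1
  funext k
  rcases Int.units_eq_one_or (u k) with h | h <;> simp [h]

theorem diag_sign_mul {q : ℕ} (u v : Fin q → ℤˣ) :
    Matrix.diagonal (fun k => (((u k * v k : ℤˣ) : ℤ) : ℝ)) =
      Matrix.diagonal (fun k => (((u k : ℤˣ) : ℤ) : ℝ)) *
        Matrix.diagonal (fun k => (((v k : ℤˣ) : ℤ) : ℝ)) := by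
  rw [Matrix.diagonal_mul_diagonal]
  congr 1
  funext k
  simp

/-- a sum of sign characters, as an orthogonal representation -/
def diagRep {G : Type*} [Group G] {q : ℕ} (u : Fin q → (G →* ℤˣ)) : OrthRep G q :=
  MonoidHom.mk' (fun g => (⟨Matrix.diagonal (fun k => (((u k g : ℤˣ) : ℤ) : ℝ)),
    diag_sign_mem (fun k => u k g)⟩ : Matrix.orthogonalGroup (Fin q) ℝ)) (by
    intro a b
    apply Subtype.ext
    have h := diag_sign_mul (fun k => u k a) (fun k => u k b)
    simp only [← map_mul] at h
    exact h)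

/-- the sign character of a winding homomorphism -/
def sgnChar {G : Type*} [Group G] (w : G →* Multiplicative ℤ) : G →* ℤˣ :=
  (zpowersHom ℤˣ (-1)).comp w

theorem sgnChar_apply {G : Type*} [Group G] (w : G →* Multiplicative ℤ) (g : G) :
    sgnChar w g = (-1) ^ (Multiplicative.toAdd (w g)) := rfl

/-- the sign character of a set of hyperplanes -/
def setChar {G : Type*} [Group G] {n : ℕ} (w : Fin n → (G →* Multiplicative ℤ))
    (S : Finset (Fin n)) : G →* ℤˣ := ∏ j ∈ S, sgnChar (w j)

open Classical in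
theorem setChar_apply {G : Type*} [Group G] {n : ℕ} (w : Fin n → (G →* Multiplicative ℤ))
    (S : Finset (Fin n)) (g : G) (P : Fin n → Prop)
    (hg : ∀ j, w j g = Multiplicative.ofAdd (if P j then (1 : ℤ) else 0)) :
    setChar w S g = (-1) ^ (S.filter P).card := by
  unfold setChar
  rw [MonoidHom.finsetProd_apply]
  have : ∀ j ∈ S, sgnChar (w j) g = if P j then (-1 : ℤˣ) else 1 := by
    intro j _
    rw [sgnChar_apply, hg j, toAdd_ofAdd]
    split_ifs <;> simp
  rw [Finset.prod_congr rfl this, Finset.prod_ite, Finset.prod_const, Finset.prod_const_one,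
    mul_one]

/-- the characters occurring in the representation attached to `T` -/
noncomputable def repChars {G : Type*} [Group G] {n q : ℕ} (w : Fin n → (G →* Multiplicative ℤ))
    {N : Type*} (s : N → Finset (Fin n)) (T : Finset N) : Fin q → (G →* ℤˣ) := fun k =>
  if h : k.1 < T.card then setChar w (s (T.equivFin.symm ⟨k.1, h⟩).1) else 1

open Classical in
theorem count_repChars {G : Type*} [Group G] {n q : ℕ} (w : Fin n → (G →* Multiplicative ℤ))
    {N : Type*} (s : N → Finset (Fin n)) (T : Finset N) (hT : T.card ≤ q)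
    (S' : Finset (Fin n)) (hS' : S'.Nonempty) (g : Fin n → G) (lay : Fin n → Fin n → Prop)
    (hg : ∀ i ∈ S', ∀ j, w j (g i) = Multiplicative.ofAdd (if lay i j then (1 : ℤ) else 0)) :
    (Finset.univ.filter (fun k : Fin q => ∀ i ∈ S',
      (((repChars w s T k (g i) : ℤˣ) : ℤ) : ℝ) = -1)).card
      = (T.filter (fun S => ∀ i ∈ S', Odd ((s S).filter (fun j => lay i j)).card)).card := by
  have hval : ∀ (S : Finset (Fin n)), ∀ i ∈ S', ((((setChar w S (g i) : ℤˣ) : ℤ) : ℝ) = -1
      ↔ Odd (S.filter (fun j => lay i j)).card) := by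
    intro S i hi
    rw [setChar_apply w S (g i) (lay i) (hg i hi)]
    rcases Nat.even_or_odd (S.filter (fun j => lay i j)).card with h | h
    · rw [h.neg_one_pow]
      constructor
      · intro h1; norm_num at h1
      · intro h1; exact absurd h (Nat.not_even_iff_odd.mpr h1)
    · rw [h.neg_one_pow]
      simp [h]
  symm
  apply Finset.card_bij (fun S hS => (⟨(T.equivFin ⟨S, (Finset.mem_filter.mp hS).1⟩).1,
    lt_of_lt_of_le (T.equivFin ⟨S, (Finset.mem_filter.mp hS).1⟩).2 hT⟩ : Fin q))
  · intro S hS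
    rw [Finset.mem_filter] at hS ⊢
    refine ⟨Finset.mem_univ _, fun i hi => ?_⟩
    have h1 : repChars (q := q) w s T
        ⟨(T.equivFin ⟨S, hS.1⟩).1, lt_of_lt_of_le (T.equivFin ⟨S, hS.1⟩).2 hT⟩
        = setChar w (s S) := by
      unfold repChars
      rw [dif_pos (T.equivFin ⟨S, hS.1⟩).2]
      simp
    rw [h1]
    exact (hval (s S) i hi).mpr (hS.2 i hi)
  · intro S hS S2 hS2 h
    have h1 := congrArg Fin.val h
    have h2 : T.equivFin ⟨S, (Finset.mem_filter.mp hS).1⟩
        = T.equivFin ⟨S2, (Finset.mem_filter.mp hS2).1⟩ := Fin.ext h1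
    have h3 := T.equivFin.injective h2
    exact congrArg Subtype.val h3
  · intro k hk
    rw [Finset.mem_filter] at hk
    obtain ⟨i0, hi0⟩ := hS'
    by_cases hkT : k.1 < T.card
    · have hu : repChars w s T k = setChar w (s (T.equivFin.symm ⟨k.1, hkT⟩).1) := by
        unfold repChars
        rw [dif_pos hkT]
      refine ⟨(T.equivFin.symm ⟨k.1, hkT⟩).1, ?_, ?_⟩
      · rw [Finset.mem_filter]
        refine ⟨(T.equivFin.symm ⟨k.1, hkT⟩).2, fun i hi => ?_⟩
        rw [← hval _ i hi, ← hu]
        exact hk.2 i hi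
      · apply Fin.ext
        simp
    · exfalso
      have hu : repChars w s T k = 1 := by
        unfold repChars
        rw [dif_neg hkT]
      have := hk.2 i0 hi0
      rw [hu] at this
      norm_num at this



/-! ### assembly -/

theorem continuous_affine {l : ℕ} (f : (Fin l → ℂ) →ᵃ[ℂ] ℂ) : Continuous f :=
  f.continuous_of_finiteDimensional

theorem OrthRep.continuous_mat {G : Type*} [Group G] {q : ℕ} (g : G) :
    Continuous (fun ρ : OrthRep G q => ρ.mat g) := by
  have h : Continuous (fun (ρ : OrthRep G q) (g : G) => ρ.mat g) := continuous_induced_dom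
  exact (continuous_apply g).comp h

theorem OrthRep.mat_mem {G : Type*} [Group G] {q : ℕ} (ρ : OrthRep G q) (g : G) :
    ρ.mat g ∈ Matrix.orthogonalGroup (Fin q) ℝ :=
  ((show G →* Matrix.orthogonalGroup (Fin q) ℝ from ρ) g).2

theorem OrthRep.mat_mul {G : Type*} [Group G] {q : ℕ} (ρ : OrthRep G q) (g h : G) :
    ρ.mat (g * h) = ρ.mat g * ρ.mat h := by
  unfold OrthRep.mat
  rw [map_mul]
  rfl

theorem mat_diagRep {G : Type*} [Group G] {q : ℕ} (u : Fin q → (G →* ℤˣ)) (g : G) :
    (diagRep u).mat g = Matrix.diagonal (fun k => (((u k g : ℤˣ) : ℤ) : ℝ)) := rfl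

open Classical in
theorem main_components {l n : ℕ} (α : Fin n → ((Fin l → ℂ) →ᵃ[ℂ] ℂ))
    (x : {v : Fin l → ℂ // ∀ j, α j v ≠ 0}) (q : ℕ) :
    ∃ c : {T : Finset (NN α) // T.card ≤ q} →
      ZerothHomotopy (OrthRep (FundamentalGroup {v : Fin l → ℂ // ∀ j, α j v ≠ 0} x) q),
      Function.Injective c := by
  have hne : ∀ j, ∃ v, α j v ≠ 0 := fun j => ⟨x.1, x.2 j⟩
  choose w hw using fun j => A_wind (fun v : {v : Fin l → ℂ // ∀ j, α j v ≠ 0} => α j v.1)
    ((continuous_affine (α j)).comp continuous_subtype_val) (fun v => v.2 j) x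
  let rep : {T : Finset (NN α) // T.card ≤ q} →
      OrthRep (FundamentalGroup {v : Fin l → ℂ // ∀ j, α j v ≠ 0} x) q := fun T =>
    diagRep (repChars w (fun S : NN α => S.1) T.1)
  refine ⟨fun T => Quotient.mk _ (rep T), ?_⟩
  intro T T' hTT
  have hj : Joined (rep T) (rep T') := Quotient.exact hTT
  obtain ⟨γ⟩ := hj
  apply Subtype.ext
  apply count_separates α hne
  intro S'
  obtain ⟨g, hgc, hg⟩ := torus_elements α x S'.1 S'.2.1.1 w hw
  -- the invariant
  have hinv : ∀ T : {T : Finset (NN α) // T.card ≤ q},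
      Module.finrank ℝ (jointNeg S'.1 (fun i => (rep T).mat (g i)))
        = (T.1.filter (fun S => QQ α S'.1 S.1)).card := by
    intro T
    have h1 := finrank_jointNeg_diagonal S'.1 (fun i (k : Fin q) =>
      (((repChars w (fun S : NN α => S.1) T.1 k (g i) : ℤˣ) : ℤ) : ℝ))
    have h2 := count_repChars w (fun S : NN α => S.1) T.1 T.2 S'.1 S'.2.2 g
      (fun i j => layer α S'.1 i j) hg
    rw [show Module.finrank ℝ (jointNeg S'.1 (fun i => (rep T).mat (g i))) = _ from h1]
    have h3 : (T.1.filter (fun S => QQ α S'.1 S.1)).card = (T.1.filter (fun S : NN α =>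
        ∀ i ∈ S'.1, Odd (S.1.filter (fun j => layer α S'.1 i j)).card)).card := by
      congr 1
      ext S
      simp only [Finset.mem_filter]
      rfl
    rw [h3]
    convert h2
  have hloc : IsLocallyConstant (fun ρ : OrthRep
      (FundamentalGroup {v : Fin l → ℂ // ∀ j, α j v ≠ 0} x) q =>
      Module.finrank ℝ (jointNeg S'.1 (fun i => ρ.mat (g i))) % 2) := by
    apply C_parity S'.1 (fun (ρ : OrthRep
      (FundamentalGroup {v : Fin l → ℂ // ∀ j, α j v ≠ 0} x) q) i => ρ.mat (g i))
    · apply continuous_pi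
      intro i
      exact OrthRep.continuous_mat (g i)
    · intro ρ i _
      exact ρ.mat_mem (g i)
    · intro ρ i _ j _
      change ρ.mat (g i) * ρ.mat (g j) = ρ.mat (g j) * ρ.mat (g i)
      rw [← ρ.mat_mul, ← ρ.mat_mul, (hgc i j).eq]
  have hconst := (hloc.comp_continuous γ.continuous).apply_eq_of_isPreconnected
    isPreconnected_univ (Set.mem_univ 0) (Set.mem_univ 1)
  have e0 : γ 0 = rep T := γ.source
  have e1 : γ 1 = rep T' := γ.target
  simp only [Function.comp_apply] at hconst
  rw [e0, e1, hinv T, hinv T'] at hconst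
  exact hconst

end ArrHom
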