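import Mathlib
import Pool.Agent.Lib.MP_cd8289_gt.Arr
set_option autoImplicit false

open scoped unitInterval

namespace ArrHom

theorem card_small_subsets {N : Type*} [Fintype N] [DecidableEq N] (q : ℕ) :
    Fintype.card {T : Finset N // T.card ≤ q} =
      ∑ i ∈ Finset.range (q + 1), (Fintype.card N).choose i := by
  classical
  rw [Fintype.card_subtype]
  have h : (Finset.univ.filter (fun T : Finset N => T.card ≤ q)) =
      (Finset.range (q + 1)).biUnion (fun i => Finset.powersetCard i Finset.univ) := by
    ext T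
    simp only [Finset.mem_filter, Finset.mem_univ, true_and, Finset.mem_biUnion, Finset.mem_range,
      Finset.mem_powersetCard, Finset.subset_univ]
    constructor
    · intro hT
      exact ⟨T.card, by omega, rfl⟩
    · rintro ⟨i, hi, rfl⟩
      omega
  rw [h, Finset.card_biUnion]
  · apply Finset.sum_congr rfl
    intro i _
    rw [Finset.card_powersetCard, Finset.card_univ]
  · intro i _ j _ hij
    exact Finset.pairwise_disjoint_powersetCard _ hij

theorem numeric_sum {N : Type} [Finite N] {Z : Type*} (q : ℕ)
    (c : {T : Finset N // T.card ≤ q} → Z) (hc : Function.Injective c) :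
    ((∑ i ∈ Finset.range (q + 1), (Nat.card N).choose i : ℕ) : Cardinal) ≤ Cardinal.mk Z := by
  classical
  have : Fintype N := Fintype.ofFinite N
  have h1 := Cardinal.lift_mk_le_lift_mk_of_injective hc
  rw [Cardinal.mk_fintype, card_small_subsets, ← Nat.card_eq_fintype_card, Cardinal.lift_natCast,
    Cardinal.lift_uzero] at h1
  exact h1

theorem numeric_pow {N : Type} [Finite N] {Z : Type*} (q : ℕ) (hq : Nat.card N ≤ q)
    (c : {T : Finset N // T.card ≤ q} → Z) (hc : Function.Injective c) :
    ((2 ^ Nat.card N : ℕ) : Cardinal) ≤ Cardinal.mk Z := by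
  refine le_trans ?_ (numeric_sum q c hc)
  have h2 : 2 ^ Nat.card N ≤ ∑ i ∈ Finset.range (q + 1), (Nat.card N).choose i := by
    rw [← Nat.sum_range_choose]
    apply Finset.sum_le_sum_of_subset
    intro i hi
    rw [Finset.mem_range] at hi ⊢
    omega
  exact_mod_cast h2

theorem isNBC_empty {l n : ℕ} (α : Fin n → ((Fin l → ℂ) →ᵃ[ℂ] ℂ)) : IsNBC α ∅ := by
  refine ⟨⟨0, ?_⟩, ?_⟩
  · intro j hj
    simp at hj
  · intro i hi
    simp at hi

theorem card_nbc {l n : ℕ} (α : Fin n → ((Fin l → ℂ) →ᵃ[ℂ] ℂ)) :
    Nat.card {S : Finset (Fin n) // IsNBC α S} = Nat.card (NN α) + 1 := by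
  classical
  rw [Nat.card_eq_fintype_card, Nat.card_eq_fintype_card, Fintype.card_subtype,
    Fintype.card_subtype]
  have h : (Finset.univ.filter (fun S : Finset (Fin n) => IsNBC α S)) =
      insert ∅ (Finset.univ.filter (fun S : Finset (Fin n) => IsNBC α S ∧ S.Nonempty)) := by
    ext S
    simp only [Finset.mem_filter, Finset.mem_univ, true_and, Finset.mem_insert]
    constructor
    · intro hS
      by_cases h0 : S = ∅
      · exact Or.inl h0
      · exact Or.inr ⟨hS, Finset.nonempty_iff_ne_empty.2 h0⟩
    · rintro (rfl | hS)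
      · exact isNBC_empty α
      · exact hS.1
  rw [h, Finset.card_insert_of_notMem]
  simp

end ArrHom
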